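import Mathlib

/-!
# The cone relation and the transfer recursion
-/

open scoped ComplexConjugate

namespace Pool.Agent.W_MP_308f9e_co_h1

/-- `v * conj u` lies in the closed convex cone generated by `1` and `z`. -/
def Rel (z u v : ℂ) : Prop := ∃ s t : ℝ, 0 ≤ s ∧ 0 ≤ t ∧ v * conj u = s + t * z

variable {z : ℂ}

lemma Rel.refl (z u : ℂ) : Rel z u u := by
  refine ⟨Complex.normSq u, 0, Complex.normSq_nonneg u, le_rfl, ?_⟩
  rw [Complex.mul_conj]; simp

lemma Rel.zero_left (z v : ℂ) : Rel z 0 v := ⟨0, 0, le_rfl, le_rfl, by simp⟩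

lemma Rel.zero_right (z u : ℂ) : Rel z u 0 := ⟨0, 0, le_rfl, le_rfl, by simp⟩

lemma Rel.add_right {u v w : ℂ} (h1 : Rel z u v) (h2 : Rel z u w) : Rel z u (v + w) := by
  obtain ⟨s, t, hs, ht, h⟩ := h1
  obtain ⟨s', t', hs', ht', h'⟩ := h2
  refine ⟨s + s', t + t', by positivity, by positivity, ?_⟩
  rw [add_mul, h, h']; push_cast; ring

lemma Rel.add_left {u v w : ℂ} (h1 : Rel z u w) (h2 : Rel z v w) : Rel z (u + v) w := by
  obtain ⟨s, t, hs, ht, h⟩ := h1
  obtain ⟨s', t', hs', ht', h'⟩ := h2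
  refine ⟨s + s', t + t', by positivity, by positivity, ?_⟩
  rw [map_add, mul_add, h, h']; push_cast; ring

lemma Rel.sum_right {ι : Type*} {I : Finset ι} {u : ℂ} {v : ι → ℂ}
    (h : ∀ i ∈ I, Rel z u (v i)) : Rel z u (∑ i ∈ I, v i) := by
  classical
  induction I using Finset.induction_on with
  | empty => simpa using Rel.zero_right z u
  | insert a I ha ih =>
    rw [Finset.sum_insert ha]
    exact (h a (by simp)).add_right (ih fun i hi => h i (Finset.mem_insert_of_mem hi))

lemma Rel.sum_left {ι : Type*} {I : Finset ι} {u : ι → ℂ} {v : ℂ}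
    (h : ∀ i ∈ I, Rel z (u i) v) : Rel z (∑ i ∈ I, u i) v := by
  classical
  induction I using Finset.induction_on with
  | empty => simpa using Rel.zero_left z v
  | insert a I ha ih =>
    rw [Finset.sum_insert ha]
    exact (h a (by simp)).add_left (ih fun i hi => h i (Finset.mem_insert_of_mem hi))

lemma Rel.sum_sum {ι κ : Type*} {I : Finset ι} {J : Finset κ} {u : ι → ℂ} {v : κ → ℂ}
    (h : ∀ i ∈ I, ∀ j ∈ J, Rel z (u i) (v j)) : Rel z (∑ i ∈ I, u i) (∑ j ∈ J, v j) :=
  Rel.sum_left fun i hi => Rel.sum_right fun j hj => h i hi j hj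

lemma Rel.rotate {u v : ℂ} (h : Rel z u v) : Rel z v (z * u) := by
  obtain ⟨s, t, hs, ht, h⟩ := h
  refine ⟨t * Complex.normSq z, s, mul_nonneg ht (Complex.normSq_nonneg z), hs, ?_⟩
  have h1 : conj v * u = s + t * conj z := by
    have := congrArg conj h
    simpa using this
  calc z * u * conj v = z * (conj v * u) := by ring
    _ = z * (s + t * conj z) := by rw [h1]
    _ = t * (z * conj z) + s * z := by ring
    _ = _ := by rw [Complex.mul_conj]; push_cast; ring

lemma Rel.of_nonneg {u v : ℝ} (hu : 0 ≤ u) (hv : 0 ≤ v) : Rel z (u : ℂ) (v : ℂ) :=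
  ⟨v * u, 0, by positivity, le_rfl, by simp⟩

/-- partial sums -/
def low (a : ℕ → ℂ) (j : ℕ) : ℂ := ∑ i ∈ Finset.range (j + 1), a i

/-- upper sums -/
def upp (m : ℕ) (b : ℕ → ℂ) (j : ℕ) : ℂ := ∑ i ∈ Finset.Ioc j m, b i

/-- The invariants at level `m`. -/
structure Inv (z : ℂ) (m : ℕ) (a b : ℕ → ℂ) : Prop where
  bb : ∀ i j, i ≤ j → j ≤ m → Rel z (b j) (b i)
  aa : ∀ i j, i ≤ j → j ≤ m → Rel z (a j) (a i)
  ba : ∀ i j, i ≤ j → j ≤ m → Rel z (b j) (a i)
  blk : ∀ i j, i ≤ j → j ≤ m → Rel z (∑ l ∈ Finset.Ioc i j, b l) (∑ l ∈ Finset.Ioc i j, a l)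
  ul : ∀ i j, i ≤ m → j ≤ m → Rel z (upp m b i) (low a j)
  a0 : a 0 ≠ 0
  b0 : b 0 ≠ 0

lemma low_split (a : ℕ → ℂ) {i j : ℕ} (h : i ≤ j) :
    low a j = low a i + ∑ l ∈ Finset.Ioc i j, a l := by
  unfold low
  have : Finset.range (j + 1) = Finset.range (i + 1) ∪ Finset.Ioc i j := by
    ext l; simp; omega
  rw [this, Finset.sum_union]
  rw [Finset.disjoint_left]; intro l; simp; omega

lemma upp_split (m : ℕ) (b : ℕ → ℂ) {i j : ℕ} (h : i ≤ j) (hj : j ≤ m) :
    upp m b i = upp m b j + ∑ l ∈ Finset.Ioc i j, b l := by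
  unfold upp
  have : Finset.Ioc i m = Finset.Ioc j m ∪ Finset.Ioc i j := by
    ext l; simp; omega
  rw [this, Finset.sum_union]
  rw [Finset.disjoint_left]; intro l; simp; omega

lemma low_low {m : ℕ} {a b : ℕ → ℂ} (h : Inv z m a b) {i j : ℕ} (hij : i ≤ j) (hj : j ≤ m) :
    Rel z (low a j) (low a i) := by
  rw [low_split a hij]
  refine (Rel.refl _ _).add_left ?_
  unfold low
  refine Rel.sum_sum ?_
  intro l hl k hk
  simp at hl hk
  exact h.aa _ _ (by omega) (by omega)

/-- sums of partial sums over `S` versus over `T`, when `S` lies above `T` outside of the common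
part -/
lemma Rel.sum_common {ι : Type*} [DecidableEq ι] {S T : Finset ι} {u : ι → ℂ}
    (h : ∀ i ∈ S, ∀ j ∈ T, (i ∉ T ∨ j ∉ S) → Rel z (u i) (u j)) :
    Rel z (∑ i ∈ S, u i) (∑ j ∈ T, u j) := by
  have hS : ∑ i ∈ S, u i = ∑ i ∈ S ∩ T, u i + ∑ i ∈ S \ T, u i := by
    rw [← Finset.sum_inter_add_sum_sdiff S T]
  have hT : ∑ i ∈ T, u i = ∑ i ∈ S ∩ T, u i + ∑ i ∈ T \ S, u i := by
    rw [← Finset.sum_inter_add_sum_sdiff T S, Finset.inter_comm]
  rw [hS, hT]
  refine Rel.add_left (Rel.add_right (Rel.refl _ _) ?_) (Rel.add_right ?_ ?_)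
  · refine Rel.sum_sum fun i hi j hj => ?_
    simp at hi hj
    exact h i hi.1 j hj.1 (Or.inr hj.2)
  · refine Rel.sum_sum fun i hi j hj => ?_
    simp at hi hj
    exact h i hi.1 j hj.2 (Or.inl hi.2)
  · refine Rel.sum_sum fun i hi j hj => ?_
    simp at hi hj
    exact h i hi.1 j hj.1 (Or.inl hi.2)

/-- One step of the recursion. -/
lemma Inv.step {m : ℕ} {a b : ℕ → ℂ} (h : Inv z (m + 1) a b)
    (hz : ∀ s t : ℝ, 0 < s → 0 ≤ t → (s : ℂ) + t * z ≠ 0) :
    Inv z m (fun j => low a j + z * upp (m + 1) b j) (fun j => low a j) := by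
  have hUL : ∀ i j, i ≤ m + 1 → j ≤ m + 1 → Rel z (low a j) (z * upp (m + 1) b i) :=
    fun i j hi hj => (h.ul i j hi hj).rotate
  refine ⟨?_, ?_, ?_, ?_, ?_, ?_, ?_⟩
  · intro i j hij hj
    exact low_low h hij (by omega)
  · intro i j hij hj
    have e1 : low a j + z * upp (m + 1) b j =
        (low a i + z * upp (m + 1) b j) + ∑ l ∈ Finset.Ioc i j, a l := by
      rw [low_split a hij]; ring
    have e2 : low a i + z * upp (m + 1) b i =
        (low a i + z * upp (m + 1) b j) + z * ∑ l ∈ Finset.Ioc i j, b l := by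
      rw [upp_split (m + 1) b hij (by omega)]; ring
    rw [e1, e2]
    refine Rel.add_left (Rel.add_right (Rel.refl _ _) ?_) (Rel.add_right (Rel.add_right ?_ ?_) ?_)
    · apply Rel.rotate
      refine Rel.add_right ?_ ?_
      · refine Rel.sum_sum fun l hl k hk => ?_
        simp at hl hk
        exact h.ba _ _ (by omega) (by omega)
      · apply Rel.rotate
        refine Rel.sum_sum fun l hl k hk => ?_
        simp at hl hk
        exact h.bb _ _ (by omega) (by omega)
    · refine Rel.sum_sum fun l hl k hk => ?_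
      simp at hl hk
      exact h.aa _ _ (by omega) (by omega)
    · apply Rel.rotate
      refine Rel.sum_sum fun l hl k hk => ?_
      simp at hl hk
      exact h.ba _ _ (by omega) (by omega)
    · exact (h.blk i j hij (by omega)).rotate
  · intro i j hij hj
    refine Rel.add_right (low_low h hij (by omega)) (hUL _ _ (by omega) (by omega))
  · intro i j hij hj
    rw [Finset.sum_add_distrib]
    refine Rel.add_right (Rel.refl _ _) ?_
    refine Rel.sum_sum fun l hl k hk => ?_
    simp at hl hk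
    exact hUL _ _ (by omega) (by omega)
  · intro i j hi hj
    unfold upp
    rw [low]
    rw [Finset.sum_add_distrib]
    refine Rel.add_right ?_ ?_
    · refine Rel.sum_common fun l hl k hk hor => ?_
      simp at hl hk hor
      exact low_low h (by omega) (by omega)
    · refine Rel.sum_sum fun l hl k hk => ?_
      simp at hl hk
      exact hUL _ _ (by omega) (by omega)
  · obtain ⟨s, t, hs, ht, hst⟩ := hUL 0 0 (by omega) (by omega)
    have e0 : low a 0 = a 0 := by simp [low]
    intro hc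
    rw [e0] at hst hc
    have h1 : (a 0 + z * upp (m + 1) b 0) * conj (a 0) =
        ((Complex.normSq (a 0) + s : ℝ) : ℂ) + t * z := by
      rw [add_mul, hst, Complex.mul_conj]; push_cast; ring
    rw [hc, zero_mul] at h1
    refine hz _ t ?_ ht h1.symm
    have := Complex.normSq_pos.mpr h.a0
    linarith
  · simpa [low] using h.a0

end Pool.Agent.W_MP_308f9e_co_h1
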