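import Pool.Agent.W_MP_308f9e_co_h1.Chains
import Pool.Agent.W_MP_308f9e_co_h1.Cone

/-!
# Flag vectors as functions of the `f`-vector, and their isolated sums
-/

namespace Pool.Agent.W_MP_308f9e_co_h1

variable {R : Type*} [CommRing R]

/-- flag `f`-vector of a decreasing list from the `f`-vector -/
def alphaL (f : ℕ → R) : List ℕ → R
  | [] => f 0
  | t :: l => f t * chainCount l t

/-- flag `f`-vector from the `f`-vector -/
def alpha (f : ℕ → R) (T : Finset ℕ) : R := alphaL f (T.sort (· ≥ ·))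

/-- flag `h`-vector from the `f`-vector -/
def beta (f : ℕ → R) (S : Finset ℕ) : R :=
  ∑ T ∈ S.powerset, (-1) ^ (S \ T).card * alpha f T

lemma alpha_insert (f : ℕ → R) (a : ℕ) (T : Finset ℕ) (hT : ∀ t ∈ T, t < a) :
    alpha f (insert a T) = f a * alpha (fun i => (a.choose i : R)) T := by
  unfold alpha
  rw [sort_insert_max a T hT]
  simp only [alphaL]
  congr 1
  cases T.sort (· ≥ ·) with
  | nil => simp [chainCount]
  | cons t l => simp [chainCount]

lemma alpha_sub (f g : ℕ → R) (c : R) (T : Finset ℕ) :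
    alpha (fun i => c * f i - g i) T = c * alpha f T - alpha g T := by
  unfold alpha
  cases T.sort (· ≥ ·) with
  | nil => simp [alphaL]
  | cons t l => simp only [alphaL]; ring

lemma alpha_add (f g : ℕ → R) (c : R) (T : Finset ℕ) :
    alpha (fun i => f i + c * g i) T = alpha f T + c * alpha g T := by
  unfold alpha
  cases T.sort (· ≥ ·) with
  | nil => simp [alphaL]
  | cons t l => simp only [alphaL]; ring

lemma alpha_congr {f g : ℕ → R} {n : ℕ} (h : ∀ i ≤ n, f i = g i) (T : Finset ℕ)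
    (hT : ∀ t ∈ T, t ≤ n) : alpha f T = alpha g T := by
  unfold alpha
  have h1 : ∀ t ∈ T.sort (· ≥ ·), t ≤ n := fun t ht => hT t ((Finset.mem_sort _).mp ht)
  revert h1
  cases T.sort (· ≥ ·) with
  | nil => intro _; simp [alphaL, h 0 (Nat.zero_le _)]
  | cons t l => intro h1; simp only [alphaL]; rw [h t (h1 t (by simp))]

lemma beta_sub (f g : ℕ → R) (c : R) (S : Finset ℕ) :
    beta (fun i => c * f i - g i) S = c * beta f S - beta g S := by
  unfold beta
  rw [Finset.mul_sum, ← Finset.sum_sub_distrib]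
  refine Finset.sum_congr rfl fun T _ => ?_
  rw [alpha_sub]; ring

lemma beta_add (f g : ℕ → R) (c : R) (S : Finset ℕ) :
    beta (fun i => f i + c * g i) S = beta f S + c * beta g S := by
  unfold beta
  rw [Finset.mul_sum, ← Finset.sum_add_distrib]
  refine Finset.sum_congr rfl fun T _ => ?_
  rw [alpha_add]; ring

lemma beta_congr {f g : ℕ → R} {n : ℕ} (h : ∀ i ≤ n, f i = g i) (S : Finset ℕ)
    (hS : ∀ t ∈ S, t ≤ n) : beta f S = beta g S := by
  unfold beta
  refine Finset.sum_congr rfl fun T hT => ?_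
  rw [alpha_congr h T fun t ht => hS t (Finset.mem_powerset.mp hT ht)]

lemma beta_insert (f : ℕ → R) (a : ℕ) (S : Finset ℕ) (hS : ∀ t ∈ S, t < a) :
    beta f (insert a S) = beta (fun i => f a * (a.choose i : R) - f i) S := by
  have ha : a ∉ S := fun h => lt_irrefl _ (hS a h)
  rw [beta_sub]
  unfold beta
  rw [Finset.sum_powerset_insert ha, Finset.mul_sum, add_comm, sub_eq_add_neg,
    ← Finset.sum_neg_distrib]
  congr 1
  · refine Finset.sum_congr rfl fun T hT => ?_
    have hT' : ∀ t ∈ T, t < a := fun t ht => hS t (Finset.mem_powerset.mp hT ht)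
    have haT : a ∉ T := fun h => lt_irrefl _ (hT' a h)
    rw [alpha_insert f a T hT']
    have : insert a S \ insert a T = S \ T := by
      ext x
      simp only [Finset.mem_sdiff, Finset.mem_insert, not_or]
      constructor
      · rintro ⟨h1 | h1, h2, h3⟩
        · exact absurd h1 h2
        · exact ⟨h1, h3⟩
      · rintro ⟨h1, h2⟩
        exact ⟨Or.inr h1, fun h => ha (h ▸ h1), h2⟩
    rw [this]; ring
  · refine Finset.sum_congr rfl fun T hT => ?_
    have haT : a ∉ T := fun h => ha (Finset.mem_powerset.mp hT h)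
    have : (insert a S \ T).card = (S \ T).card + 1 := by
      rw [Finset.insert_sdiff_of_notMem _ haT, Finset.card_insert_of_notMem]
      simp [ha]
    rw [this, pow_succ]; ring

/-- isolated subsets of `[lo, n]` -/
def isoSets (lo n : ℕ) : Finset (Finset ℕ) := {S ∈ (Finset.Icc lo n).powerset | Isolated S}

lemma mem_isoSets {lo n : ℕ} {S : Finset ℕ} :
    S ∈ isoSets lo n ↔ S ⊆ Finset.Icc lo n ∧ Isolated S := by
  simp [isoSets]

/-- `∑_S β_f(S) z^|S|` over isolated `S ⊆ [lo, n]`. -/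
def G (lo : ℕ) (z : R) (f : ℕ → R) (n : ℕ) : R := ∑ S ∈ isoSets lo n, beta f S * z ^ S.card

lemma G_congr {f g : ℕ → R} (lo : ℕ) (z : R) {n : ℕ} (h : ∀ i ≤ n, f i = g i) :
    G lo z f n = G lo z g n := by
  unfold G
  refine Finset.sum_congr rfl fun S hS => ?_
  rw [mem_isoSets] at hS
  rw [beta_congr h S fun t ht => (Finset.mem_Icc.mp (hS.1 ht)).2]

lemma G_add (lo : ℕ) (z : R) (f g : ℕ → R) (c : R) (n : ℕ) :
    G lo z (fun i => f i + c * g i) n = G lo z f n + c * G lo z g n := by
  unfold G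
  rw [Finset.mul_sum, ← Finset.sum_add_distrib]
  refine Finset.sum_congr rfl fun S _ => ?_
  rw [beta_add]; ring

lemma isoSets_empty {lo n : ℕ} (h : n < lo) : isoSets lo n = {∅} := by
  ext S
  rw [mem_isoSets, Finset.Icc_eq_empty (by omega), Finset.subset_empty, Finset.mem_singleton]
  constructor
  · rintro ⟨h, _⟩; exact h
  · rintro rfl; exact ⟨rfl, by simp [Isolated]⟩

lemma G_zero {lo : ℕ} {n : ℕ} (h : n < lo) (z : R) (f : ℕ → R) : G lo z f n = f 0 := by
  unfold G
  rw [isoSets_empty h]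
  simp [beta, alpha, alphaL]

/-- Recursion of `G` on the largest rank. -/
lemma G_succ (lo : ℕ) (hlo : 1 ≤ lo) (z : R) (f : ℕ → R) (n : ℕ) (hn : lo ≤ n + 1) :
    G lo z f (n + 1) =
      G lo z f n + z * G lo z (fun i => f (n + 1) * ((n + 1).choose i : R) - f i) (n - 1) := by
  have hsplit : isoSets lo (n + 1) = isoSets lo n ∪
      (isoSets lo (n - 1)).image (insert (n + 1)) := by
    ext S
    simp only [Finset.mem_union, Finset.mem_image, mem_isoSets]
    constructor
    · rintro ⟨h1, h2⟩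
      by_cases hmem : n + 1 ∈ S
      · right
        refine ⟨S.erase (n + 1), ⟨?_, ?_⟩, Finset.insert_erase hmem⟩
        · intro x hx
          rw [Finset.mem_erase] at hx
          have h3 := Finset.mem_Icc.mp (h1 hx.2)
          have h4 : x ≠ n := by
            rintro rfl
            exact h2 x hx.2 hmem
          rw [Finset.mem_Icc]; omega
        · intro x hx hx'
          rw [Finset.mem_erase] at hx hx'
          exact h2 x hx.2 hx'.2
      · left
        refine ⟨?_, h2⟩
        intro x hx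
        have h3 := Finset.mem_Icc.mp (h1 hx)
        have h4 : x ≠ n + 1 := by rintro rfl; exact hmem hx
        rw [Finset.mem_Icc]; omega
    · rintro (⟨h1, h2⟩ | ⟨S', ⟨h1, h2⟩, rfl⟩)
      · refine ⟨?_, h2⟩
        intro x hx
        have h3 := Finset.mem_Icc.mp (h1 hx)
        rw [Finset.mem_Icc]; omega
      · refine ⟨?_, ?_⟩
        · intro x hx
          rw [Finset.mem_insert] at hx
          rcases hx with rfl | hx
          · rw [Finset.mem_Icc]; omega
          · have h3 := Finset.mem_Icc.mp (h1 hx)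
            rw [Finset.mem_Icc]; omega
        · intro x hx hx'
          rw [Finset.mem_insert] at hx hx'
          rcases hx with rfl | hx
          · rcases hx' with h | h
            · omega
            · have h3 := Finset.mem_Icc.mp (h1 h)
              omega
          · rcases hx' with h | h
            · have h3 := Finset.mem_Icc.mp (h1 hx)
              omega
            · exact h2 x hx h
  have hlt : ∀ S ∈ isoSets lo (n - 1), ∀ t ∈ S, t < n + 1 := by
    intro S hS t ht
    rw [mem_isoSets] at hS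
    have := Finset.mem_Icc.mp (hS.1 ht)
    omega
  unfold G
  rw [hsplit, Finset.sum_union, Finset.sum_image, Finset.mul_sum]
  · congr 1
    refine Finset.sum_congr rfl fun S hS => ?_
    rw [beta_insert f (n + 1) S (hlt S hS), Finset.card_insert_of_notMem, pow_succ]
    · ring
    · intro h; exact lt_irrefl _ (hlt S hS _ h)
  · intro S hS S' hS' h
    have h1 : n + 1 ∉ S := fun h => lt_irrefl _ (hlt S hS _ h)
    have h2 : n + 1 ∉ S' := fun h => lt_irrefl _ (hlt S' hS' _ h)
    have h3 : insert (n + 1) S = insert (n + 1) S' := h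
    rw [← Finset.erase_insert h1, h3, Finset.erase_insert h2]
  · rw [Finset.disjoint_left]
    intro S hS hS'
    rw [Finset.mem_image] at hS'
    obtain ⟨S', _, rfl⟩ := hS'
    rw [mem_isoSets] at hS
    have := Finset.mem_Icc.mp (hS.1 (Finset.mem_insert_self _ _))
    omega

/-- the `f`-vector with given `h`-vector at level `n` -/
def fOf (n : ℕ) (h : ℕ → R) (i : ℕ) : R :=
  ∑ j ∈ Finset.range (i + 1), h j * ((n - j).choose (i - j) : R)

lemma hockey (N t : ℕ) : ∑ s ∈ Finset.range (t + 1), (N + s).choose s = (N + t + 1).choose t := by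
  induction t with
  | zero => simp
  | succ t ih =>
    rw [Finset.sum_range_succ, ih]
    have : (N + (t + 1) + 1).choose (t + 1) =
      (N + t + 1).choose t + (N + (t + 1)).choose (t + 1) := by
      rw [show N + (t + 1) + 1 = (N + t + 1) + 1 by ring, Nat.choose_succ_succ]
      rfl
    rw [this]

lemma hockey' {n i k : ℕ} (hk : k ≤ i) (hi : i ≤ n) :
    ∑ j ∈ Finset.Ico k (i + 1), (n - j).choose (i - j) = (n + 1 - k).choose (i - k) := by
  rw [Finset.sum_Ico_eq_sum_range]
  have h1 := hockey (n - i) (i - k)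
  have e1 : n - i + (i - k) + 1 = n + 1 - k := by omega
  rw [e1] at h1
  rw [← h1, ← Finset.sum_range_reflect]
  have e2 : i + 1 - k = i - k + 1 := by omega
  rw [e2]
  refine Finset.sum_congr rfl fun s hs => ?_
  rw [Finset.mem_range] at hs
  congr 1 <;> omega

lemma fOf_succ {n : ℕ} (a : ℕ → R) {i : ℕ} (hi : i ≤ n) :
    fOf (n + 1) a i = fOf n (fun j => ∑ k ∈ Finset.range (j + 1), a k) i := by
  unfold fOf
  simp_rw [Finset.sum_mul]
  rw [Finset.sum_comm' (t' := Finset.range (i + 1)) (s' := fun k => Finset.Ico k (i + 1))]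
  · refine Finset.sum_congr rfl fun k hk => ?_
    rw [Finset.mem_range] at hk
    rw [← Finset.mul_sum, ← Nat.cast_sum, hockey' (by omega) hi]
  · intro x y
    simp only [Finset.mem_range, Finset.mem_Ico]
    omega

lemma fOf_top (n : ℕ) (a : ℕ → R) : fOf n a n = ∑ k ∈ Finset.range (n + 1), a k := by
  unfold fOf
  refine Finset.sum_congr rfl fun k hk => ?_
  rw [Nat.choose_self]; simp

lemma choose_eq_fOf {n i : ℕ} (hi : i ≤ n) : ((n + 1).choose i : R) = fOf n (fun _ => 1) i := by
  unfold fOf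
  have := hockey' (k := 0) (Nat.zero_le i) hi
  rw [Nat.sub_zero, Nat.sub_zero] at this
  rw [← this, Finset.range_eq_Ico]
  push_cast
  refine Finset.sum_congr rfl fun k hk => ?_
  ring

/-- The operator `f(n+1) * choose (n+1) - f` in terms of `h`. -/
lemma fOf_reflect {n i : ℕ} (hi : i ≤ n) (b : ℕ → R) :
    fOf (n + 1) b (n + 1) * ((n + 1).choose i : R) - fOf (n + 1) b i =
      fOf n (fun j => ∑ k ∈ Finset.Ioc j (n + 1), b k) i := by
  rw [fOf_succ b hi, choose_eq_fOf hi, fOf_top]
  unfold fOf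
  rw [Finset.mul_sum, ← Finset.sum_sub_distrib]
  refine Finset.sum_congr rfl fun j hj => ?_
  rw [Finset.mem_range] at hj
  have : ∑ k ∈ Finset.range (n + 1 + 1), b k =
      ∑ k ∈ Finset.range (j + 1), b k + ∑ k ∈ Finset.Ioc j (n + 1), b k := by
    rw [← Finset.sum_union]
    · congr 1
      ext l; simp; omega
    · rw [Finset.disjoint_left]; intro l; simp; omega
  rw [this]; ring

lemma fOf_zero_right (n : ℕ) (a : ℕ → R) : fOf n a 0 = a 0 := by simp [fOf]

lemma fOf_add (n : ℕ) (a b : ℕ → R) (c : R) (i : ℕ) :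
    fOf n (fun j => a j + c * b j) i = fOf n a i + c * fOf n b i := by
  unfold fOf
  rw [Finset.mul_sum, ← Finset.sum_add_distrib]
  refine Finset.sum_congr rfl fun j _ => ?_
  ring

/-- the two auxiliary sequences at a level -/
def nxt (z : ℂ) (m : ℕ) (s : (ℕ → ℂ) × (ℕ → ℂ)) : (ℕ → ℂ) × (ℕ → ℂ) :=
  (fun j => low s.1 j + z * upp (m + 1) s.2 j, fun j => low s.1 j)

/-- run the recursion from level `m` down to level `0` -/
def run (z : ℂ) : ℕ → (ℕ → ℂ) × (ℕ → ℂ) → (ℕ → ℂ) × (ℕ → ℂ)
  | 0, s => s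
  | m + 1, s => run z m (nxt z m s)

lemma G_step (lo : ℕ) (hlo : 1 ≤ lo) (z : ℂ) (m : ℕ) (hm : lo ≤ m + 1) (c d : ℕ → ℂ) :
    G lo z (fOf (m + 1) c) (m + 1) + z * G lo z (fOf (m + 1) d) m =
      G lo z (fOf m (fun j => low (fun i => c i + z * d i) j)) m +
        z * G lo z (fOf m (fun j => upp (m + 1) c j)) (m - 1) := by
  rw [G_succ lo hlo z _ m hm]
  have e1 : G lo z (fOf (m + 1) c) m = G lo z (fOf m (fun j => low c j)) m :=
    G_congr lo z fun i hi => fOf_succ c hi
  have e2 : G lo z (fOf (m + 1) d) m = G lo z (fOf m (fun j => low d j)) m :=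
    G_congr lo z fun i hi => fOf_succ d hi
  have e3 : G lo z (fun i => fOf (m + 1) c (m + 1) * ((m + 1).choose i : ℂ) - fOf (m + 1) c i)
      (m - 1) = G lo z (fOf m (fun j => upp (m + 1) c j)) (m - 1) :=
    G_congr lo z fun i hi => fOf_reflect (by omega) c
  have e4 : G lo z (fOf m (fun j => low (fun i => c i + z * d i) j)) m =
      G lo z (fOf m (fun j => low c j)) m + z * G lo z (fOf m (fun j => low d j)) m := by
    rw [← G_add]
    refine G_congr lo z fun i hi => ?_
    rw [← fOf_add]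
    congr 1
    funext j
    simp only [low]
    rw [Finset.mul_sum, ← Finset.sum_add_distrib]
  rw [e1, e2, e3, e4]
  ring

lemma G_run_one (z : ℂ) (m : ℕ) : ∀ c d : ℕ → ℂ,
    G 1 z (fOf m c) m + z * G 1 z (fOf m d) (m - 1) =
      (run z m (fun j => c j + z * d j, c)).1 0 := by
  induction m with
  | zero =>
    intro c d
    rw [G_zero (by omega), G_zero (by omega), fOf_zero_right, fOf_zero_right]
    rfl
  | succ m ih =>
    intro c d
    rw [Nat.add_sub_cancel, G_step 1 le_rfl z m (by omega), ih]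
    rfl

lemma G_run_two (z : ℂ) (m : ℕ) : ∀ c d : ℕ → ℂ,
    G 2 z (fOf (m + 1) c) (m + 1) + z * G 2 z (fOf (m + 1) d) m =
      (run z (m + 1) (fun j => c j + z * d j, c)).2 0 := by
  induction m with
  | zero =>
    intro c d
    rw [G_zero (by omega), G_zero (by omega), fOf_zero_right, fOf_zero_right]
    simp [run, nxt, low]
  | succ m ih =>
    intro c d
    rw [G_step 2 (by omega) z (m + 1) (by omega), Nat.add_sub_cancel, ih]
    rfl

/-- `G` for the full set of ranks is the first final value of the recursion. -/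
lemma G_one_eq (z : ℂ) (m : ℕ) (h : ℕ → ℂ) : G 1 z (fOf m h) m = (run z m (h, h)).1 0 := by
  have := G_run_one z m h 0
  have e : fOf m (0 : ℕ → ℂ) = 0 := by funext i; simp [fOf]
  have e2 : ∀ k, G 1 z (0 : ℕ → ℂ) k = 0 := by
    intro k
    have := G_add 1 z (0 : ℕ → ℂ) 0 1 k
    have h0 : (fun i => (0 : ℕ → ℂ) i + 1 * (0 : ℕ → ℂ) i) = 0 := by funext i; simp
    rw [h0] at this
    simpa using this
  rw [e, e2] at this
  simpa using this

lemma G_two_eq (z : ℂ) (m : ℕ) (h : ℕ → ℂ) :
    G 2 z (fOf (m + 1) h) (m + 1) = (run z (m + 1) (h, h)).2 0 := by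
  have := G_run_two z m h 0
  have e : fOf (m + 1) (0 : ℕ → ℂ) = 0 := by funext i; simp [fOf]
  have e2 : ∀ k, G 2 z (0 : ℕ → ℂ) k = 0 := by
    intro k
    have := G_add 2 z (0 : ℕ → ℂ) 0 1 k
    have h0 : (fun i => (0 : ℕ → ℂ) i + 1 * (0 : ℕ → ℂ) i) = 0 := by funext i; simp
    rw [h0] at this
    simpa using this
  rw [e, e2] at this
  simpa using this

lemma Inv.run {z : ℂ} (hz : ∀ s t : ℝ, 0 < s → 0 ≤ t → (s : ℂ) + t * z ≠ 0) (m : ℕ) :
    ∀ s : (ℕ → ℂ) × (ℕ → ℂ), Inv z m s.1 s.2 →
      Inv z 0 (run z m s).1 (run z m s).2 := by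
  induction m with
  | zero => intro s h; exact h
  | succ m ih =>
    intro s h
    exact ih _ (h.step hz)

lemma Inv.init (z : ℂ) (m : ℕ) (h : ℕ → ℝ) (hh : ∀ j, 0 ≤ h j) (h0 : h 0 ≠ 0) :
    Inv z m (fun j => (h j : ℂ)) (fun j => (h j : ℂ)) := by
  have h0' : (h 0 : ℂ) ≠ 0 := by exact_mod_cast h0
  refine ⟨?_, ?_, ?_, ?_, ?_, h0', h0'⟩
  · intro i j _ _; exact Rel.of_nonneg (hh _) (hh _)
  · intro i j _ _; exact Rel.of_nonneg (hh _) (hh _)
  · intro i j _ _; exact Rel.of_nonneg (hh _) (hh _)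
  · intro i j _ _; exact Rel.sum_sum fun _ _ _ _ => Rel.of_nonneg (hh _) (hh _)
  · intro i j _ _; exact Rel.sum_sum fun _ _ _ _ => Rel.of_nonneg (hh _) (hh _)

/-- **Key fact.** For a nonnegative `h`-vector with `h 0 ≠ 0`, at every `z` off the nonpositive
real axis, the isolated sums over `[1,n]` and `[2,n]` do not vanish and their quotient lies in the
cone generated by `1` and `z`. -/
theorem key_rel {z : ℂ} (hz : ∀ s t : ℝ, 0 < s → 0 ≤ t → (s : ℂ) + t * z ≠ 0) (n : ℕ)
    (h : ℕ → ℝ) (hh : ∀ j, 0 ≤ h j) (h0 : h 0 ≠ 0) :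
    G 1 z (fOf (n + 1) (fun j => (h j : ℂ))) (n + 1) ≠ 0 ∧
    G 2 z (fOf (n + 1) (fun j => (h j : ℂ))) (n + 1) ≠ 0 ∧
    Rel z (G 2 z (fOf (n + 1) (fun j => (h j : ℂ))) (n + 1))
      (G 1 z (fOf (n + 1) (fun j => (h j : ℂ))) (n + 1)) := by
  rw [G_one_eq, G_two_eq]
  have := Inv.run hz (n + 1) (fun j => (h j : ℂ), fun j => (h j : ℂ))
    (Inv.init z (n + 1) h hh h0)
  exact ⟨this.a0, this.b0, this.ba 0 0 le_rfl le_rfl⟩

end Pool.Agent.W_MP_308f9e_co_h1
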