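import Pool.Agent.W_MP_308f9e_co_h1.Defs

open Polynomial

namespace Pool.Agent.W_MP_308f9e_co_h1

variable {P : Type} [PartialOrder P] [GradeMinOrder ℕ P]

section simplicial

lemma grade_eq_card {n : ℕ} {m : P} (e : Set.Iic m ≃o Finset (Fin n)) :
    ∀ x : Set.Iic m, grade ℕ (x : P) = (e x).card := by
  have key : ∀ k : ℕ, ∀ x : Set.Iic m, (e x).card = k → grade ℕ (x : P) = k := by
    intro k
    induction k with
    | zero =>
      intro x hx
      have hx' : e x = ⊥ := by simpa using hx
      have hmin : IsMin (x : P) := by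
        intro y hy
        have hym : y ∈ Set.Iic m := le_trans hy x.2
        have h1 : e ⟨y, hym⟩ ≤ e x := e.monotone (show (⟨y, hym⟩ : Set.Iic m) ≤ x from hy)
        have h2 : e x ≤ e ⟨y, hym⟩ := by rw [hx']; exact bot_le
        have h3 : x ≤ ⟨y, hym⟩ := e.le_iff_le.mp h2
        exact h3
      have := GradeMinOrder.isMin_grade (𝕆 := ℕ) hmin
      exact Nat.le_zero.mp (this (Nat.zero_le _))
    | succ k ih =>
      intro x hx
      have hne : (e x).Nonempty := by
        rw [← Finset.card_pos, hx]; exact Nat.succ_pos _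
      obtain ⟨a, ha⟩ := hne
      set s := (e x).erase a with hs
      have hscard : s.card = k := by rw [hs, Finset.card_erase_of_mem ha, hx]; rfl
      set y : Set.Iic m := e.symm s with hy
      have hey : e y = s := by simp [hy]
      have hgy : grade ℕ (y : P) = k := ih y (by rw [hey, hscard])
      have hcov : e y ⋖ e x := by
        rw [hey, hs]
        exact Finset.erase_covBy ha
      have hcov' : y ⋖ x := (apply_covBy_apply_iff e).mp hcov
      have hcov'' : (y : P) ⋖ (x : P) := by
        refine ⟨hcov'.lt, ?_⟩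
        intro c hc1 hc2
        have hcm : c ∈ Set.Iic m := le_trans hc2.le x.2
        exact hcov'.2 (show y < ⟨c, hcm⟩ from hc1) (show (⟨c, hcm⟩ : Set.Iic m) < x from hc2)
      have hg := GradeOrder.covBy_grade (𝕆 := ℕ) hcov''
      have hg' : grade ℕ (y : P) ⋖ grade ℕ (x : P) := hg
      rw [Nat.covBy_iff_add_one_eq] at hg'
      omega
  intro x
  exact key _ x rfl

lemma card_below {n : ℕ} [Finite P] (hP : IsSimplicialOfRank P n) (y : P) (i : ℕ) :
    Nat.card {x : P // x ≤ y ∧ grade ℕ x = i} = (grade ℕ y).choose i := by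
  obtain ⟨m, hym, hmax⟩ := Finite.exists_le_maximal (p := fun _ : P => True) (a := y) trivial
  have hm : IsMax m := by
    intro z hz
    exact hmax.2 trivial hz
  obtain ⟨e⟩ := hP m hm
  have hg := grade_eq_card e
  set y' : Set.Iic m := ⟨y, hym⟩ with hy'
  have h1 : (grade ℕ y) = (e y').card := hg y'
  rw [h1]
  rw [← Finset.card_powersetCard]
  have h2 : (Finset.powersetCard i (e y')).card = Nat.card (Finset.powersetCard i (e y')) := by
    rw [Nat.card_eq_fintype_card, Fintype.card_coe]
  rw [h2]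
  apply Nat.card_congr
  refine
    { toFun := fun x => ⟨e ⟨x.1, le_trans x.2.1 hym⟩, ?_⟩
      invFun := fun s => ⟨(e.symm s.1 : P), ?_⟩
      left_inv := ?_
      right_inv := ?_ }
  · rw [Finset.mem_powersetCard]
    constructor
    · have : (⟨x.1, le_trans x.2.1 hym⟩ : Set.Iic m) ≤ y' := x.2.1
      exact e.monotone this
    · rw [← hg]; exact x.2.2
  · have hs := s.2
    rw [Finset.mem_powersetCard] at hs
    constructor
    · have : e.symm s.1 ≤ y' := by
        rw [← e.le_iff_le]; simpa using hs.1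
      exact this
    · rw [hg]; simpa using hs.2
  · intro x; simp
  · intro s
    apply Subtype.ext
    exact e.apply_symm_apply s.1

end simplicial

/-- Number of chains with rank set `T`, all of whose elements are `< y`. -/
noncomputable def below (T : Finset ℕ) (y : P) : ℕ :=
  Nat.card {C : Finset P // IsChain (· ≤ ·) (C : Set P) ∧ grade ℕ '' (C : Set P) = (T : Set ℕ) ∧
    ∀ x ∈ C, x < y}

lemma below_empty (y : P) : below ∅ y = 1 := by
  unfold below
  rw [Nat.card_eq_one_iff_unique]
  refine ⟨⟨fun A B => ?_⟩, ⟨⟨∅, by simp⟩⟩⟩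
  have h : ∀ A : {C : Finset P // IsChain (· ≤ ·) (C : Set P) ∧
      grade ℕ '' (C : Set P) = ((∅ : Finset ℕ) : Set ℕ) ∧ ∀ x ∈ C, x < y}, A.1 = ∅ := by
    intro A
    have h2 := A.2.2.1
    simp only [Finset.coe_empty, Set.image_eq_empty, Finset.coe_eq_empty] at h2
    exact h2
  exact Subtype.ext ((h A).trans (h B).symm)

lemma flagF_empty : flagF P ∅ = 1 := by
  unfold flagF
  rw [Nat.card_eq_one_iff_unique]
  refine ⟨⟨fun A B => ?_⟩, ⟨⟨∅, by simp⟩⟩⟩
  have h : ∀ A : {C : Finset P // IsChain (· ≤ ·) (C : Set P) ∧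
      grade ℕ '' (C : Set P) = ((∅ : Finset ℕ) : Set ℕ)}, A.1 = ∅ := by
    intro A
    have h2 := A.2.2
    simp only [Finset.coe_empty, Set.image_eq_empty, Finset.coe_eq_empty] at h2
    exact h2
  exact Subtype.ext ((h A).trans (h B).symm)

/-- Adding a new top element to a chain: the core recursion. -/
lemma card_insert [Finite P] (Q : P → Prop) (hQ : ∀ x y : P, x < y → Q y → Q x)
    (a : ℕ) (T : Finset ℕ) (hT : ∀ t ∈ T, t < a) :
    Nat.card {C : Finset P // IsChain (· ≤ ·) (C : Set P) ∧
      grade ℕ '' (C : Set P) = ((insert a T : Finset ℕ) : Set ℕ) ∧ ∀ x ∈ C, Q x} =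
    Nat.card (Σ x : {x : P // Q x ∧ grade ℕ x = a},
      {C : Finset P // IsChain (· ≤ ·) (C : Set P) ∧
        grade ℕ '' (C : Set P) = (T : Set ℕ) ∧ ∀ z ∈ C, z < (x : P)}) := by
  classical
  symm
  let F : (Σ x : {x : P // Q x ∧ grade ℕ x = a},
      {C : Finset P // IsChain (· ≤ ·) (C : Set P) ∧
        grade ℕ '' (C : Set P) = (T : Set ℕ) ∧ ∀ z ∈ C, z < (x : P)}) →
      {C : Finset P // IsChain (· ≤ ·) (C : Set P) ∧
      grade ℕ '' (C : Set P) = ((insert a T : Finset ℕ) : Set ℕ) ∧ ∀ x ∈ C, Q x} :=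
    fun p => ⟨insert (p.1 : P) p.2.1, by
      rw [Finset.coe_insert]
      refine p.2.2.1.insert ?_
      intro z hz _
      exact Or.inr (p.2.2.2.2 z hz).le, by
      rw [Finset.coe_insert, Set.image_insert_eq, p.2.2.2.1, p.1.2.2, Finset.coe_insert], by
      intro z hz
      rw [Finset.mem_insert] at hz
      rcases hz with rfl | hz
      · exact p.1.2.1
      · exact hQ _ _ (p.2.2.2.2 z hz) p.1.2.1⟩
  refine Nat.card_congr (Equiv.ofBijective F ⟨?_, ?_⟩)
  · rintro ⟨⟨x, hx⟩, ⟨C, hC⟩⟩ ⟨⟨x', hx'⟩, ⟨C', hC'⟩⟩ h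
    have h' : insert x C = insert x' C' := congrArg Subtype.val h
    have hgr : ∀ z ∈ C', grade ℕ z < a := by
      intro z hz
      have h1 : grade ℕ z ∈ (T : Set ℕ) := by
        rw [← hC'.2.1]; exact ⟨z, hz, rfl⟩
      exact hT _ h1
    have hxx : x = x' := by
      have h1 : x ∈ insert x' C' := by rw [← h']; exact Finset.mem_insert_self _ _
      rw [Finset.mem_insert] at h1
      rcases h1 with h1 | h1
      · exact h1
      · have := hgr _ h1
        omega
    subst hxx
    have hn : x ∉ C := fun hh => lt_irrefl _ (hC.2.2 _ hh)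
    have hn' : x ∉ C' := fun hh => lt_irrefl _ (hC'.2.2 _ hh)
    have hCC : C = C' := by
      rw [← Finset.erase_insert hn, h', Finset.erase_insert hn']
    subst hCC
    rfl
  · rintro ⟨C, hC⟩
    have hinj : ∀ x ∈ C, ∀ z ∈ C, x ≠ z → grade ℕ z ≤ grade ℕ x → z < x := by
      intro x hx z hz hne hg
      rcases hC.1 hx hz hne with h | h
      · have := grade_strictMono (𝕆 := ℕ) (lt_of_le_of_ne h hne)
        omega
      · exact lt_of_le_of_ne h hne.symm
    have hmem : ∀ z ∈ C, grade ℕ z = a ∨ grade ℕ z ∈ T := by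
      intro z hz
      have h1 : grade ℕ z ∈ ((insert a T : Finset ℕ) : Set ℕ) := by
        rw [← hC.2.1]; exact ⟨z, hz, rfl⟩
      simpa using h1
    have : a ∈ grade ℕ '' (C : Set P) := by
      rw [hC.2.1]; simp
    obtain ⟨x, hxC, hxa⟩ := this
    have hxC' : x ∈ C := hxC
    have hle : ∀ z ∈ C, x ≠ z → z < x := by
      intro z hz hne
      refine hinj x hxC' z hz hne ?_
      rcases hmem z hz with h1 | h1
      · rw [h1, hxa]
      · have := hT _ h1
        omega
    refine ⟨⟨⟨x, hC.2.2 x hxC', hxa⟩, ⟨C.erase x, hC.1.mono (by simp), ?_, ?_⟩⟩, ?_⟩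
    · ext t
      constructor
      · rintro ⟨z, hz, rfl⟩
        rw [Finset.mem_coe, Finset.mem_erase] at hz
        rcases hmem z hz.2 with h1 | h1
        · exfalso
          have h2 := grade_strictMono (𝕆 := ℕ) (hle z hz.2 hz.1.symm)
          omega
        · exact h1
      · intro ht
        have h1 : t ∈ grade ℕ '' (C : Set P) := by
          rw [hC.2.1, Finset.coe_insert]; exact Or.inr ht
        obtain ⟨z, hz, rfl⟩ := h1
        refine ⟨z, ?_, rfl⟩
        rw [Finset.mem_coe, Finset.mem_erase]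
        refine ⟨?_, hz⟩
        rintro rfl
        have := hT _ ht
        omega
    · intro z hz
      rw [Finset.mem_erase] at hz
      exact hle z hz.2 hz.1.symm
    · apply Subtype.ext
      exact Finset.insert_erase hxC'

lemma below_insert [Finite P] (y : P) (a : ℕ) (T : Finset ℕ) (hT : ∀ t ∈ T, t < a) :
    below (insert a T) y = ∑ᶠ x : {x : P // x < y ∧ grade ℕ x = a}, below T (x : P) := by
  classical
  have := Fintype.ofFinite P
  unfold below
  rw [card_insert (fun x => x < y) (fun _ _ h1 h2 => h1.trans h2) a T hT, Nat.card_sigma,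
    finsum_eq_sum_of_fintype]

lemma flagF_insert [Finite P] (a : ℕ) (T : Finset ℕ) (hT : ∀ t ∈ T, t < a) :
    flagF P (insert a T) = ∑ᶠ x : {x : P // grade ℕ x = a}, below T (x : P) := by
  classical
  have := Fintype.ofFinite P
  have h := card_insert (P := P) (fun _ => True) (fun _ _ _ _ => trivial) a T hT
  have h1 : flagF P (insert a T) = Nat.card {C : Finset P // IsChain (· ≤ ·) (C : Set P) ∧
      grade ℕ '' (C : Set P) = ((insert a T : Finset ℕ) : Set ℕ) ∧ ∀ x ∈ C, True} := by
    unfold flagF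
    apply Nat.card_congr
    apply Equiv.subtypeEquivRight
    intro C
    simp
  rw [h1, h, Nat.card_sigma, finsum_eq_sum_of_fintype]
  let e : {x : P // True ∧ grade ℕ x = a} ≃ {x : P // grade ℕ x = a} :=
    Equiv.subtypeEquivRight (fun x => by simp)
  exact Fintype.sum_equiv e _ _ (fun x => rfl)

/-- `chainCount l r` for a decreasing list `l = [t_k, …, t_1]`: the number of chains of subsets
of an `r`-set with these sizes. -/
def chainCount : List ℕ → ℕ → ℕ
  | [], _ => 1
  | t :: l, r => r.choose t * chainCount l t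

lemma sort_insert_max (a : ℕ) (T : Finset ℕ) (hT : ∀ t ∈ T, t < a) :
    (insert a T).sort (· ≥ ·) = a :: T.sort (· ≥ ·) := by
  have ha : a ∉ T := fun h => lt_irrefl _ (hT a h)
  exact Finset.sort_insert (r := (· ≥ ·)) (fun b hb => (hT b hb).le) ha

lemma below_eq [Finite P] {n : ℕ} (hP : IsSimplicialOfRank P n) (T : Finset ℕ) :
    ∀ y : P, (∀ t ∈ T, t < grade ℕ y) →
      below T y = chainCount (T.sort (· ≥ ·)) (grade ℕ y) := by
  induction T using Finset.induction_on_max with
  | empty => intro y _; simp [below_empty, chainCount]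
  | insert a T hT ih =>
    intro y hy
    have hay : a < grade ℕ y := hy a (by simp)
    classical
    have := Fintype.ofFinite P
    rw [below_insert y a T hT, sort_insert_max a T hT, chainCount]
    have h1 : ∀ x : {x : P // x < y ∧ grade ℕ x = a}, below T (x : P) =
        chainCount (T.sort (· ≥ ·)) a := by
      intro x
      rw [ih x.1 (by rw [x.2.2]; exact hT), x.2.2]
    rw [finsum_congr h1, finsum_eq_sum_of_fintype, Finset.sum_const, smul_eq_mul,
      Finset.card_univ, ← card_below hP y a]
    congr 1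
    rw [← Nat.card_eq_fintype_card]
    apply Nat.card_congr
    apply Equiv.subtypeEquivRight
    intro x
    constructor
    · rintro ⟨h1, h2⟩; exact ⟨h1.le, h2⟩
    · rintro ⟨h1, h2⟩
      refine ⟨lt_of_le_of_ne h1 ?_, h2⟩
      rintro rfl
      omega

/-- The flag `f`-vector of a simplicial poset in terms of its `f`-vector. -/
theorem flagF_insert_eq [Finite P] {n : ℕ} (hP : IsSimplicialOfRank P n) (a : ℕ) (T : Finset ℕ)
    (hT : ∀ t ∈ T, t < a) :
    flagF P (insert a T) = rankCount P a * chainCount (T.sort (· ≥ ·)) a := by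
  classical
  have := Fintype.ofFinite P
  rw [flagF_insert a T hT]
  have h1 : ∀ x : {x : P // grade ℕ x = a}, below T (x : P) =
        chainCount (T.sort (· ≥ ·)) a := by
    intro x
    rw [below_eq hP T x.1 (by rw [x.2]; exact hT), x.2]
  rw [finsum_congr h1, finsum_eq_sum_of_fintype, Finset.sum_const, smul_eq_mul,
      Finset.card_univ, ← Nat.card_eq_fintype_card, rankCount]

end Pool.Agent.W_MP_308f9e_co_h1
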