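import Mathlib

/-!
# Chow polynomials of simplicial posets: definitions
-/

open Polynomial

namespace Pool.Agent.W_MP_308f9e_co_h1

/-- `P` is simplicial of rank `n`: the lower interval of every maximal element is isomorphic to
the Boolean lattice of rank `n`. -/
def IsSimplicialOfRank (P : Type) [PartialOrder P] (n : ℕ) : Prop :=
  ∀ m : P, IsMax m → Nonempty (Set.Iic m ≃o Finset (Fin n))

/-- number of elements of rank `i` -/
noncomputable def rankCount (P : Type) [PartialOrder P] [GradeMinOrder ℕ P] (i : ℕ) : ℕ :=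
  Nat.card {x : P // grade ℕ x = i}

/-- The `h`-polynomial `∑ h_i x^i = ∑ f_{i-1} x^i (1 - x)^(n - i)`; the `h`-vector consists of its
coefficients. -/
noncomputable def hPoly (P : Type) [PartialOrder P] [GradeMinOrder ℕ P] (n : ℕ) : ℝ[X] :=
  ∑ i ∈ Finset.range (n + 1), C (rankCount P i : ℝ) * X ^ i * (1 - X) ^ (n - i)

/-- The flag `f`-vector entry `α(T)`: the number of chains of `P` whose set of ranks is exactly
`T`. For `T ⊆ {1, …, n}` these are the chains of `P` with a top element adjoined, lying strictly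
between the bottom and the new top, whose set of ranks is `T`. -/
noncomputable def flagF (P : Type) [PartialOrder P] [GradeMinOrder ℕ P] (T : Finset ℕ) : ℕ :=
  Nat.card {C : Finset P // IsChain (· ≤ ·) (C : Set P) ∧ grade ℕ '' (C : Set P) = (T : Set ℕ)}

/-- The flag `h`-vector entry `β(S)`. -/
noncomputable def flagH (P : Type) [PartialOrder P] [GradeMinOrder ℕ P] (S : Finset ℕ) : ℤ :=
  ∑ T ∈ S.powerset, (-1) ^ (S \ T).card * (flagF P T : ℤ)

/-- `S` contains no two consecutive integers. -/
def Isolated (S : Finset ℕ) : Prop := ∀ i ∈ S, i + 1 ∉ S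

instance : DecidablePred Isolated := fun S => by unfold Isolated; infer_instance

/-- The augmented Chow polynomial `H^aug` of `P` with a top element adjoined. -/
noncomputable def chowAug (P : Type) [PartialOrder P] [GradeMinOrder ℕ P] (n : ℕ) : ℝ[X] :=
  ∑ S ∈ (Finset.Icc 1 n).powerset with Isolated S,
    C (flagH P S : ℝ) * X ^ S.card * (1 + X) ^ (n + 1 - 2 * S.card)

/-- The Chow polynomial `H` of `P` with a top element adjoined. -/
noncomputable def chow (P : Type) [PartialOrder P] [GradeMinOrder ℕ P] (n : ℕ) : ℝ[X] :=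
  ∑ S ∈ (Finset.Icc 2 n).powerset with Isolated S,
    C (flagH P S : ℝ) * X ^ S.card * (1 + X) ^ (n - 2 * S.card)

/-- `P` without its bottom element is connected: any two elements other than `⊥` are joined by a
path of successively comparable elements other than `⊥`. -/
def ConnectedAboveBot (P : Type) [PartialOrder P] [OrderBot P] : Prop :=
  ∀ x y : P, x ≠ ⊥ → y ≠ ⊥ →
    Relation.ReflTransGen (fun a b => a ≠ ⊥ ∧ b ≠ ⊥ ∧ (a ≤ b ∨ b ≤ a)) x y

/-- all complex roots of the real polynomial `p` are real -/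
def RealRooted (p : ℝ[X]) : Prop := ∀ z : ℂ, aeval z p = 0 → z.im = 0

/-- `f` interlaces `g`: both are real-rooted, `deg g ∈ {deg f, deg f + 1}` and the roots
`α₀ ≥ α₁ ≥ …` of `f` and `β₀ ≥ β₁ ≥ …` of `g` satisfy `β₀ ≥ α₀ ≥ β₁ ≥ α₁ ≥ …`. -/
def Interlaces (f g : ℝ[X]) : Prop :=
  RealRooted f ∧ RealRooted g ∧ (g.natDegree = f.natDegree ∨ g.natDegree = f.natDegree + 1) ∧
    (∀ i, i < f.natDegree →
      (f.roots.sort (· ≥ ·)).getD i 0 ≤ (g.roots.sort (· ≥ ·)).getD i 0) ∧
    (∀ i, i + 1 < g.natDegree →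
      (g.roots.sort (· ≥ ·)).getD (i + 1) 0 ≤ (f.roots.sort (· ≥ ·)).getD i 0)

end Pool.Agent.W_MP_308f9e_co_h1
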