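import Pool.Agent.W_MP_308f9e_co_h1.Main
import Pool.Agent.W_MP_308f9e_co_h1.TwoFacets

/-!
# Simplicial complexes with two facets: rank counts, flag vectors, Chow polynomials
-/

open Polynomial

namespace Pool.Agent.W_MP_308f9e_co_h1

variable {N : ℕ} {A B : Finset (Fin N)}

lemma isMax_cases {m : TwoFacets A B} (hm : IsMax m) : m.1 = A ∨ m.1 = B := by
  rcases m.2 with h | h
  · left
    exact le_antisymm h (hm (b := ⟨A, Or.inl le_rfl⟩) h)
  · right
    exact le_antisymm h (hm (b := ⟨B, Or.inr le_rfl⟩) h)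

/-- lower intervals are Boolean -/
noncomputable def iicEquiv (m : TwoFacets A B) : Set.Iic m ≃o Finset m.1 where
  toFun F := Finset.univ.filter fun v : m.1 => v.1 ∈ F.1.1
  invFun T := ⟨⟨T.map (Function.Embedding.subtype _), by
    have h : T.map (Function.Embedding.subtype _) ⊆ m.1 := by
      intro v hv
      obtain ⟨w, _, rfl⟩ := Finset.mem_map.mp hv
      exact w.2
    rcases m.2 with hm | hm
    · exact Or.inl (h.trans hm)
    · exact Or.inr (h.trans hm)⟩, by
    intro v hv
    obtain ⟨w, _, rfl⟩ := Finset.mem_map.mp hv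
    exact w.2⟩
  left_inv F := by
    apply Subtype.ext
    apply Subtype.ext
    ext v
    have hF : F.1.1 ⊆ m.1 := F.2
    simp only [Finset.mem_map, Finset.mem_filter, Finset.mem_univ, true_and,
      Function.Embedding.subtype_apply]
    constructor
    · rintro ⟨w, hw, rfl⟩
      exact hw
    · intro hv
      exact ⟨⟨v, hF hv⟩, hv, rfl⟩
  right_inv T := by
    ext v
    simp
  map_rel_iff' := by
    intro F G
    have hF : F.1.1 ⊆ m.1 := F.2
    constructor
    · intro h v hv
      have := h (Finset.mem_filter.mpr ⟨Finset.mem_univ ⟨v, hF hv⟩, hv⟩)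
      exact (Finset.mem_filter.mp this).2
    · intro h v hv
      have := (Finset.mem_filter.mp hv).2
      exact Finset.mem_filter.mpr ⟨Finset.mem_univ _, h this⟩

/-- relabelling of Boolean lattices -/
noncomputable def boolCongr {n : ℕ} {m : Finset (Fin N)} (h : m.card = n) :
    Finset m ≃o Finset (Fin n) :=
  (Finset.equivFinOfCardEq h).finsetCongr.toOrderIso
    (fun _ _ hs => Finset.map_subset_map.mpr hs) (fun _ _ hs => Finset.map_subset_map.mpr hs)

lemma isSimplicial {n : ℕ} (hA : A.card = n) (hB : B.card = n) :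
    IsSimplicialOfRank (TwoFacets A B) n := by
  intro m hm
  have hc : m.1.card = n := by
    rcases isMax_cases hm with h | h
    · rw [h, hA]
    · rw [h, hB]
  exact ⟨(iicEquiv m).trans (boolCongr hc)⟩

lemma rankCount_two (i : ℕ) : rankCount (TwoFacets A B) i =
    ((Finset.univ : Finset (Fin N)).powerset.filter
      fun F => (F ⊆ A ∨ F ⊆ B) ∧ F.card = i).card := by
  rw [rankCount]
  have e : {x : TwoFacets A B // grade ℕ x = i} ≃
      {F : Finset (Fin N) // (F ⊆ A ∨ F ⊆ B) ∧ F.card = i} :=
    { toFun := fun x => ⟨x.1.1, x.1.2, x.2⟩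
      invFun := fun F => ⟨⟨F.1, F.2.1⟩, F.2.2⟩
      left_inv := fun _ => rfl
      right_inv := fun _ => rfl }
  rw [Nat.card_congr e, Nat.card_eq_fintype_card, Fintype.card_subtype]
  congr 1

variable {P : Type} [PartialOrder P] [GradeMinOrder ℕ P]

lemma flagF_singleton [Finite P] {n : ℕ} (hP : IsSimplicialOfRank P n) (a : ℕ) :
    flagF P {a} = rankCount P a := by
  have := flagF_insert_eq hP a ∅ (by simp)
  simpa [chainCount] using this

lemma flagF_pair [Finite P] {n : ℕ} (hP : IsSimplicialOfRank P n) {a b : ℕ} (hab : a < b) :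
    flagF P {a, b} = rankCount P b * b.choose a := by
  have := flagF_insert_eq hP b {a} (by simpa using hab)
  rw [Finset.pair_comm, this]
  simp [chainCount]

lemma flagH_singleton [Finite P] {n : ℕ} (hP : IsSimplicialOfRank P n) (a : ℕ) :
    flagH P {a} = rankCount P a - 1 := by
  rw [flagH, show ({a} : Finset ℕ).powerset = {∅, {a}} from by
    ext T
    simp only [Finset.mem_powerset, Finset.mem_insert, Finset.mem_singleton]
    exact Finset.subset_singleton_iff]
  rw [Finset.sum_pair (by simp)]
  simp only [Finset.sdiff_empty, Finset.card_singleton, flagF_empty, sdiff_self, Finset.bot_eq_empty,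
    Finset.card_empty, flagF_singleton hP]
  push_cast
  ring

lemma flagH_pair [Finite P] {n : ℕ} (hP : IsSimplicialOfRank P n) {a b : ℕ} (hab : a < b) :
    flagH P {a, b} = rankCount P b * b.choose a - rankCount P a - rankCount P b + 1 := by
  have hne : a ≠ b := hab.ne
  have h1 : ({a, b} : Finset ℕ).powerset = {∅, {a}, {b}, {a, b}} := by
    ext T
    simp only [Finset.mem_powerset, Finset.mem_insert, Finset.mem_singleton]
    rw [← Finset.coe_subset, Finset.coe_pair, Set.subset_pair_iff_eq]
    simp only [Finset.coe_eq_empty, Finset.coe_eq_singleton]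
    rw [← Finset.coe_pair, Finset.coe_inj]
  have hb : ({b} : Finset ℕ) ≠ {a, b} := by
    intro h
    have : a ∈ ({b} : Finset ℕ) := h ▸ Finset.mem_insert_self a {b}
    exact hne (Finset.mem_singleton.mp this)
  have ha : ({a} : Finset ℕ) ≠ {a, b} := by
    intro h
    have : b ∈ ({a} : Finset ℕ) := h ▸ (Finset.mem_insert_of_mem (Finset.mem_singleton_self b))
    exact hne (Finset.mem_singleton.mp this).symm
  have he : (∅ : Finset ℕ) ≠ {a, b} := by
    intro h
    have : a ∈ (∅ : Finset ℕ) := h ▸ Finset.mem_insert_self a {b}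
    simp at this
  rw [flagH, h1, Finset.sum_insert, Finset.sum_insert, Finset.sum_pair hb]
  · have e1 : (({a, b} : Finset ℕ) \ {a}).card = 1 := by
      rw [Finset.card_sdiff_of_subset (by simp), Finset.card_pair hne, Finset.card_singleton]
    have e2 : (({a, b} : Finset ℕ) \ {b}).card = 1 := by
      rw [Finset.card_sdiff_of_subset (by simp), Finset.card_pair hne, Finset.card_singleton]
    rw [e1, e2, Finset.sdiff_empty, Finset.card_pair hne, sdiff_self, Finset.bot_eq_empty,
      Finset.card_empty, flagF_empty, flagF_singleton hP, flagF_singleton hP, flagF_pair hP hab]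
    push_cast
    ring
  · simp only [Finset.mem_insert, Finset.mem_singleton, not_or]
    exact ⟨by simpa using hne, ha⟩
  · simp only [Finset.mem_insert, Finset.mem_singleton, not_or]
    exact ⟨by simp, by simp, he⟩

lemma nonreal_root {u : ℝ} (h1 : -2 < u) (h2 : u < 2) :
    ∃ z : ℂ, z.im ≠ 0 ∧ z ^ 2 - u * z + 1 = 0 := by
  have hpos : 0 < 1 - u ^ 2 / 4 := by nlinarith
  refine ⟨(u / 2 : ℝ) + (Real.sqrt (1 - u ^ 2 / 4) : ℝ) * Complex.I, ?_, ?_⟩
  · simp [(Real.sqrt_pos.mpr hpos).ne']
  · have hs : ((Real.sqrt (1 - u ^ 2 / 4) : ℝ) : ℂ) ^ 2 = 1 - (u : ℂ) ^ 2 / 4 := by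
      rw [← Complex.ofReal_pow, Real.sq_sqrt hpos.le]
      push_cast
      ring
    have hI := Complex.I_sq
    push_cast
    linear_combination (Complex.I ^ 2) * hs + (1 - (u : ℂ) ^ 2 / 4) * hI

end Pool.Agent.W_MP_308f9e_co_h1
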