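import Pool.Agent.W_MP_308f9e_co_h1.Defs

/-!
# Interlacing from positivity of `Im (g * conj f)` on the upper half plane
-/

open Polynomial Filter Topology
open scoped ComplexConjugate

namespace Pool.Agent.W_MP_308f9e_co_h1

/-- the argument of `x + i ε` for `ε > 0` -/
noncomputable def ang (ε x : ℝ) : ℝ := Real.pi / 2 - Real.arctan (x / ε)

lemma ang_spec {ε : ℝ} (hε : 0 < ε) (x : ℝ) :
    ((x : ℂ) + ε * Complex.I) = (Real.sqrt (x ^ 2 + ε ^ 2) : ℝ) *
      Complex.exp ((ang ε x : ℝ) * Complex.I) := by
  have hpos : 0 < x ^ 2 + ε ^ 2 := by positivity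
  have hs : 0 < Real.sqrt (x ^ 2 + ε ^ 2) := Real.sqrt_pos.mpr hpos
  have h1 : Real.sqrt (1 + (x / ε) ^ 2) = Real.sqrt (x ^ 2 + ε ^ 2) / ε := by
    rw [show 1 + (x / ε) ^ 2 = (x ^ 2 + ε ^ 2) / ε ^ 2 by field_simp; ring,
      Real.sqrt_div hpos.le, Real.sqrt_sq hε.le]
  have hcos : Real.cos (ang ε x) = x / Real.sqrt (x ^ 2 + ε ^ 2) := by
    rw [ang, Real.cos_pi_div_two_sub, Real.sin_arctan, h1]
    field_simp
  have hsin : Real.sin (ang ε x) = ε / Real.sqrt (x ^ 2 + ε ^ 2) := by
    rw [ang, Real.sin_pi_div_two_sub, Real.cos_arctan, h1]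
    field_simp
  rw [Complex.exp_mul_I, ← Complex.ofReal_cos, ← Complex.ofReal_sin, hcos, hsin]
  push_cast
  have hs' : (Real.sqrt (x ^ 2 + ε ^ 2) : ℂ) ≠ 0 := by exact_mod_cast hs.ne'
  field_simp

/-- sum of the angles over a multiset of real roots -/
noncomputable def angSum (F : Multiset ℝ) (ε t : ℝ) : ℝ := (F.map fun a => ang ε (t - a)).sum

lemma prod_eq {ε : ℝ} (hε : 0 < ε) (t : ℝ) (F : Multiset ℝ) :
    ∃ r : ℝ, 0 < r ∧ (F.map fun a : ℝ => ((t : ℂ) + ε * Complex.I - (a : ℂ))).prod =
      r * Complex.exp ((angSum F ε t : ℝ) * Complex.I) := by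
  induction F using Multiset.induction_on with
  | empty => exact ⟨1, one_pos, by simp [angSum]⟩
  | cons a F ih =>
    obtain ⟨r, hr, h⟩ := ih
    refine ⟨Real.sqrt ((t - a) ^ 2 + ε ^ 2) * r, by positivity, ?_⟩
    rw [Multiset.map_cons, Multiset.prod_cons, h]
    have h1 : (t : ℂ) + ε * Complex.I - (a : ℂ) = ((t - a : ℝ) : ℂ) + ε * Complex.I := by
      push_cast; ring
    rw [h1, ang_spec hε]
    have h2 : angSum (a ::ₘ F) ε t = ang ε (t - a) + angSum F ε t := by
      simp [angSum]
    rw [h2]
    push_cast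
    rw [add_mul, Complex.exp_add]
    ring

lemma continuous_angSum (F : Multiset ℝ) (ε : ℝ) : Continuous (angSum F ε) := by
  unfold angSum
  induction F using Multiset.induction_on with
  | empty => simpa using continuous_const
  | cons a F ih =>
    simp only [Multiset.map_cons, Multiset.sum_cons]
    refine Continuous.add ?_ ih
    unfold ang
    fun_prop

lemma tendsto_angSum_atTop (F : Multiset ℝ) {ε : ℝ} (hε : 0 < ε) :
    Tendsto (angSum F ε) atTop (𝓝 0) := by
  unfold angSum
  induction F using Multiset.induction_on with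
  | empty => simp
  | cons a F ih =>
    simp only [Multiset.map_cons, Multiset.sum_cons]
    have h1 : Tendsto (fun t => ang ε (t - a)) atTop (𝓝 0) := by
      unfold ang
      have h2 : Tendsto (fun t : ℝ => (t - a) / ε) atTop atTop :=
        (tendsto_atTop_add_const_right _ (-a) tendsto_id).atTop_div_const hε
      have h3 := Real.tendsto_arctan_atTop.mono_right nhdsWithin_le_nhds |>.comp h2
      have h4 := h3.const_sub (Real.pi / 2)
      simpa using h4
    simpa using h1.add ih

/-- number of elements larger than `t` -/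
noncomputable def numGt (F : Multiset ℝ) (t : ℝ) : ℕ := by
  classical exact F.countP (fun a => t < a)

lemma tendsto_angSum_zero (F : Multiset ℝ) (t : ℝ) (ht : t ∉ F) :
    Tendsto (fun ε => angSum F ε t) (𝓝[>] 0) (𝓝 (Real.pi * numGt F t)) := by
  classical
  unfold angSum numGt
  induction F using Multiset.induction_on with
  | empty => simp
  | cons a F ih =>
    have hta : t ≠ a := fun h => ht (by simp [h])
    have htF : t ∉ F := fun h => ht (Multiset.mem_cons_of_mem h)
    simp only [Multiset.map_cons, Multiset.sum_cons]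
    have h1 : Tendsto (fun ε => ang ε (t - a)) (𝓝[>] 0)
        (𝓝 (if t < a then Real.pi else 0)) := by
      unfold ang
      by_cases hlt : t < a
      · rw [if_pos hlt]
        have h2 : Tendsto (fun ε : ℝ => (t - a) / ε) (𝓝[>] 0) atBot := by
          have := tendsto_inv_nhdsGT_zero (𝕜 := ℝ)
          have h3 := this.const_mul_atTop_of_neg (show t - a < 0 by linarith)
          simpa [div_eq_mul_inv] using h3
        have h3 := Real.tendsto_arctan_atBot.mono_right nhdsWithin_le_nhds |>.comp h2
        have h4 := h3.const_sub (Real.pi / 2)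
        have e : Real.pi / 2 - -(Real.pi / 2) = Real.pi := by ring
        rw [e] at h4
        exact h4
      · rw [if_neg hlt]
        have hgt : 0 < t - a := by
          rcases lt_or_gt_of_ne hta with h | h
          · exact absurd h hlt
          · linarith
        have h2 : Tendsto (fun ε : ℝ => (t - a) / ε) (𝓝[>] 0) atTop := by
          have := tendsto_inv_nhdsGT_zero (𝕜 := ℝ)
          have h3 := this.const_mul_atTop hgt
          simpa [div_eq_mul_inv] using h3
        have h3 := Real.tendsto_arctan_atTop.mono_right nhdsWithin_le_nhds |>.comp h2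
        have h4 := h3.const_sub (Real.pi / 2)
        simpa using h4
    have h2 := h1.add (ih htF)
    rw [Multiset.countP_cons]
    have e : Real.pi * ((Multiset.countP (fun a => t < a) F + if t < a then 1 else 0 : ℕ) : ℝ) =
        (if t < a then Real.pi else 0) + Real.pi * (Multiset.countP (fun a => t < a) F : ℝ) := by
      split_ifs <;> push_cast <;> ring
    rw [e]
    exact h2

lemma sin_ivt {D : ℝ → ℝ} (hD : Continuous D) (hlim : Tendsto D atTop (𝓝 0))
    (hsin : ∀ t, 0 ≤ Real.sin (D t)) (t : ℝ) : 0 ≤ D t ∧ D t ≤ Real.pi := by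
  have hpi := Real.pi_pos
  constructor
  · by_contra hneg
    push Not at hneg
    have h1 : D t < -(Real.pi / 2) := by
      by_contra hge
      push Not at hge
      have := Real.sin_neg_of_neg_of_neg_pi_lt hneg (by linarith)
      linarith [hsin t]
    have h2 : ∀ᶠ s in atTop, -(Real.pi / 2) < D s :=
      hlim.eventually (lt_mem_nhds (by linarith))
    obtain ⟨s, hs1, hs2⟩ := (h2.and (eventually_ge_atTop t)).exists
    have h3 : -(Real.pi / 2) ∈ D '' Set.Icc t s :=
      intermediate_value_Icc hs2 hD.continuousOn ⟨h1.le, hs1.le⟩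
    obtain ⟨u, _, hu⟩ := h3
    have h4 := hsin u
    rw [hu, Real.sin_neg, Real.sin_pi_div_two] at h4
    linarith
  · by_contra hgt
    push Not at hgt
    have h1 : 3 * Real.pi / 2 < D t := by
      by_contra hge
      push Not at hge
      have h5 : 0 < Real.sin (D t - Real.pi) :=
        Real.sin_pos_of_pos_of_lt_pi (by linarith) (by linarith)
      rw [Real.sin_sub_pi] at h5
      linarith [hsin t]
    have h2 : ∀ᶠ s in atTop, D s < 3 * Real.pi / 2 :=
      hlim.eventually (gt_mem_nhds (by linarith))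
    obtain ⟨s, hs1, hs2⟩ := (h2.and (eventually_ge_atTop t)).exists
    have h3 : 3 * Real.pi / 2 ∈ D '' Set.Icc t s :=
      intermediate_value_Icc' hs2 hD.continuousOn ⟨hs1.le, h1.le⟩
    obtain ⟨u, _, hu⟩ := h3
    have h4 := hsin u
    have e : 3 * Real.pi / 2 = Real.pi / 2 + Real.pi := by ring
    rw [hu, e, Real.sin_add_pi, Real.sin_pi_div_two] at h4
    linarith

lemma counts {F G : Multiset ℝ}
    (hsin : ∀ ε : ℝ, 0 < ε → ∀ t, 0 ≤ Real.sin (angSum G ε t - angSum F ε t)) {t : ℝ}
    (hF : t ∉ F) (hG : t ∉ G) : numGt F t ≤ numGt G t ∧ numGt G t ≤ numGt F t + 1 := by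
  have hpi := Real.pi_pos
  have hlim := (tendsto_angSum_zero G t hG).sub (tendsto_angSum_zero F t hF)
  have hb : ∀ ε : ℝ, 0 < ε → 0 ≤ angSum G ε t - angSum F ε t ∧
      angSum G ε t - angSum F ε t ≤ Real.pi := by
    intro ε hε
    have h1 := (tendsto_angSum_atTop G hε).sub (tendsto_angSum_atTop F hε)
    rw [sub_zero] at h1
    exact sin_ivt ((continuous_angSum G ε).sub (continuous_angSum F ε)) h1 (hsin ε hε) t
  have h0 : 0 ≤ Real.pi * (numGt G t : ℝ) - Real.pi * numGt F t := by
    refine ge_of_tendsto hlim ?_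
    filter_upwards [self_mem_nhdsWithin] with ε hε
    exact (hb ε hε).1
  have h1 : Real.pi * (numGt G t : ℝ) - Real.pi * numGt F t ≤ Real.pi := by
    refine le_of_tendsto hlim ?_
    filter_upwards [self_mem_nhdsWithin] with ε hε
    exact (hb ε hε).2
  constructor
  · have : (numGt F t : ℝ) ≤ numGt G t := by
      by_contra h
      push Not at h
      nlinarith
    exact_mod_cast this
  · have : (numGt G t : ℝ) ≤ numGt F t + 1 := by
      by_contra h
      push Not at h
      nlinarith
    exact_mod_cast this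

lemma numGt_ge {F : Multiset ℝ} {i : ℕ} (hi : i < F.card) {t : ℝ}
    (h : t < (F.sort (· ≥ ·)).getD i 0) : i + 1 ≤ numGt F t := by
  classical
  unfold numGt
  set l := F.sort (· ≥ ·) with hl
  have hlen : l.length = F.card := Multiset.length_sort _
  have hF : (l : Multiset ℝ) = F := Multiset.sort_eq _ _
  rw [← hF, Multiset.coe_countP]
  have hsort : l.Pairwise (· ≥ ·) := Multiset.pairwise_sort _ _
  have hi' : i < l.length := by omega
  rw [List.getD_eq_getElem _ _ hi'] at h
  have h1 : (l.take (i + 1)).countP (fun a => decide (t < a)) = (l.take (i + 1)).length := by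
    rw [List.countP_eq_length]
    intro a ha
    rw [List.mem_take_iff_getElem] at ha
    obtain ⟨k, hk, rfl⟩ := ha
    simp only [decide_eq_true_eq]
    have hk1 : k ≤ i := by omega
    rcases hk1.lt_or_eq with hlt | heq
    · have := List.pairwise_iff_getElem.mp hsort k i (by omega) hi' hlt
      linarith
    · subst heq; exact h
  have h2 : (l.take (i + 1)).countP (fun a => decide (t < a)) ≤
      l.countP (fun a => decide (t < a)) := (List.take_sublist _ _).countP_le
  rw [h1, List.length_take] at h2
  omega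

lemma numGt_le {F : Multiset ℝ} {i : ℕ} (hi : i < F.card) {t : ℝ}
    (h : (F.sort (· ≥ ·)).getD i 0 ≤ t) : numGt F t ≤ i := by
  classical
  unfold numGt
  set l := F.sort (· ≥ ·) with hl
  have hlen : l.length = F.card := Multiset.length_sort _
  have hF : (l : Multiset ℝ) = F := Multiset.sort_eq _ _
  rw [← hF, Multiset.coe_countP]
  have hsort : l.Pairwise (· ≥ ·) := Multiset.pairwise_sort _ _
  have hi' : i < l.length := by omega
  rw [List.getD_eq_getElem _ _ hi'] at h
  have h1 : (l.drop i).countP (fun a => decide (t < a)) = 0 := by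
    rw [List.countP_eq_zero]
    intro a ha
    rw [List.mem_drop_iff_getElem] at ha
    obtain ⟨k, hk, rfl⟩ := ha
    simp only [decide_eq_true_eq, not_lt]
    rcases Nat.eq_zero_or_pos k with h0 | h0
    · subst h0; simpa using h
    · have := List.pairwise_iff_getElem.mp hsort i (i + k) hi' (by omega) (by omega)
      have e : l[i + k] ≤ l[i] := this
      linarith
  have h2 := List.countP_append (p := fun a => decide (t < a)) (l₁ := l.take i) (l₂ := l.drop i)
  rw [List.take_append_drop, h1] at h2
  rw [h2]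
  have h3 := List.countP_le_length (p := fun a => decide (t < a)) (l := l.take i)
  rw [List.length_take] at h3
  omega

/-- Interlacing of two real-rooted polynomials given by their root multisets. -/
lemma sorted_interlace {F G : Multiset ℝ} (hle : F.card ≤ G.card) (hle' : G.card ≤ F.card + 1)
    (hsin : ∀ ε : ℝ, 0 < ε → ∀ t, 0 ≤ Real.sin (angSum G ε t - angSum F ε t)) :
    (∀ i, i < F.card → (F.sort (· ≥ ·)).getD i 0 ≤ (G.sort (· ≥ ·)).getD i 0) ∧
    (∀ i, i + 1 < G.card → (G.sort (· ≥ ·)).getD (i + 1) 0 ≤ (F.sort (· ≥ ·)).getD i 0) := by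
  classical
  have hex : ∀ x y : ℝ, x < y → ∃ t, x < t ∧ t < y ∧ t ∉ F ∧ t ∉ G := by
    intro x y hxy
    obtain ⟨t, ht, ht'⟩ := (Set.Ioo_infinite hxy).exists_notMem_finset (F.toFinset ∪ G.toFinset)
    rw [Finset.mem_union, not_or, Multiset.mem_toFinset, Multiset.mem_toFinset] at ht'
    exact ⟨t, ht.1, ht.2, ht'.1, ht'.2⟩
  constructor
  · intro i hi
    by_contra hlt
    push Not at hlt
    obtain ⟨t, h1, h2, h3, h4⟩ := hex _ _ hlt
    have c := counts hsin h3 h4
    have a1 := numGt_ge hi h2
    have a2 := numGt_le (F := G) (i := i) (by omega) h1.le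
    omega
  · intro i hi
    by_contra hlt
    push Not at hlt
    obtain ⟨t, h1, h2, h3, h4⟩ := hex _ _ hlt
    have c := counts hsin h3 h4
    have a1 := numGt_ge (F := G) hi h2
    have a2 := numGt_le (F := F) (i := i) (by omega) h1.le
    omega

lemma realRooted_of_upper {p : ℝ[X]} (h : ∀ z : ℂ, 0 < z.im → aeval z p ≠ 0) :
    RealRooted p := by
  intro z hz
  by_contra hne
  rcases lt_or_gt_of_ne hne with hlt | hgt
  · have h1 : aeval (conj z) p = 0 := by rw [Polynomial.aeval_conj, hz, map_zero]
    exact h (conj z) (by rw [Complex.conj_im]; linarith) h1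
  · exact h z hgt hz

lemma splits_of_realRooted {p : ℝ[X]} (hp : RealRooted p) (h0 : p ≠ 0) : p.Splits := by
  refine Splits.of_splits_map (algebraMap ℝ ℂ) (IsAlgClosed.splits _) ?_
  intro a ha
  rw [mem_roots (map_ne_zero h0), IsRoot.def, eval_map_algebraMap] at ha
  have := hp a ha
  exact ⟨a.re, by apply Complex.ext <;> simp [this]⟩

/-- **Analytic criterion.** -/
theorem interlaces_of_im {f g : ℝ[X]} (hf : f.Monic) (hg : g.Monic)
    (hdeg : g.natDegree = f.natDegree + 1)
    (hfz : ∀ z : ℂ, 0 < z.im → aeval z f ≠ 0) (hgz : ∀ z : ℂ, 0 < z.im → aeval z g ≠ 0)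
    (him : ∀ z : ℂ, 0 < z.im → 0 ≤ (aeval z g * conj (aeval z f)).im) : Interlaces f g := by
  have hfr := realRooted_of_upper hfz
  have hgr := realRooted_of_upper hgz
  have hfs := splits_of_realRooted hfr hf.ne_zero
  have hgs := splits_of_realRooted hgr hg.ne_zero
  have cf : f.natDegree = f.roots.card := hfs.natDegree_eq_card_roots
  have cg : g.natDegree = g.roots.card := hgs.natDegree_eq_card_roots
  have hsin : ∀ ε : ℝ, 0 < ε → ∀ t, 0 ≤ Real.sin (angSum g.roots ε t - angSum f.roots ε t) := by
    intro ε hε t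
    obtain ⟨r, hr, h1⟩ := prod_eq hε t f.roots
    obtain ⟨r', hr', h2⟩ := prod_eq hε t g.roots
    have ef : aeval ((t : ℂ) + ε * Complex.I) f =
        (f.roots.map fun a : ℝ => ((t : ℂ) + ε * Complex.I - (a : ℂ))).prod := by
      conv_lhs => rw [hfs.eq_prod_roots_of_monic hf]
      rw [map_multiset_prod, Multiset.map_map]
      simp
    have eg : aeval ((t : ℂ) + ε * Complex.I) g =
        (g.roots.map fun a : ℝ => ((t : ℂ) + ε * Complex.I - (a : ℂ))).prod := by
      conv_lhs => rw [hgs.eq_prod_roots_of_monic hg]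
      rw [map_multiset_prod, Multiset.map_map]
      simp
    have h3 := him ((t : ℂ) + ε * Complex.I) (by simpa using hε)
    rw [ef, eg, h1, h2] at h3
    have h4 : (r' : ℂ) * Complex.exp ((angSum g.roots ε t : ℝ) * Complex.I) *
        conj ((r : ℂ) * Complex.exp ((angSum f.roots ε t : ℝ) * Complex.I)) =
        ((r' * r : ℝ) : ℂ) *
          Complex.exp (((angSum g.roots ε t - angSum f.roots ε t : ℝ) : ℂ) * Complex.I) := by
      rw [map_mul, Complex.conj_ofReal, ← Complex.exp_conj, map_mul, Complex.conj_ofReal,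
        Complex.conj_I]
      push_cast
      rw [sub_mul, Complex.exp_sub, mul_neg, Complex.exp_neg]
      ring
    rw [h4, Complex.im_ofReal_mul, Complex.exp_ofReal_mul_I_im] at h3
    exact nonneg_of_mul_nonneg_right h3 (by positivity)
  obtain ⟨h1, h2⟩ := sorted_interlace (F := f.roots) (G := g.roots) (by omega) (by omega) hsin
  refine ⟨hfr, hgr, Or.inr hdeg, ?_, ?_⟩
  · intro i hi; exact h1 i (by omega)
  · intro i hi; exact h2 i (by omega)

end Pool.Agent.W_MP_308f9e_co_h1
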