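import Pool.Agent.W_MP_308f9e_co_h1.Alg
import Pool.Agent.W_MP_308f9e_co_h1.Interlace

open Polynomial
open scoped ComplexConjugate

namespace Pool.Agent.W_MP_308f9e_co_h1

variable {P : Type} [PartialOrder P] [GradeMinOrder ℕ P]

lemma rankCount_zero [OrderBot P] : rankCount P 0 = 1 := by
  unfold rankCount
  rw [Nat.card_eq_one_iff_unique]
  have hbot : grade ℕ (⊥ : P) = 0 := by
    have := GradeMinOrder.isMin_grade (𝕆 := ℕ) (isMin_bot : IsMin (⊥ : P))
    exact Nat.le_zero.mp (this (Nat.zero_le _))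
  refine ⟨⟨fun x y => ?_⟩, ⟨⟨⊥, hbot⟩⟩⟩
  have h : ∀ x : {x : P // grade ℕ x = 0}, x.1 = ⊥ := by
    intro x
    by_contra hne
    have h1 : (⊥ : P) < x.1 := bot_lt_iff_ne_bot.mpr hne
    have h2 := grade_strictMono (𝕆 := ℕ) h1
    rw [x.2] at h2
    omega
  exact Subtype.ext ((h x).trans (h y).symm)

lemma flagF_eq_alpha [Finite P] [OrderBot P] {n : ℕ} (hP : IsSimplicialOfRank P n)
    (T : Finset ℕ) : (flagF P T : ℂ) = alpha (fun i => (rankCount P i : ℂ)) T := by
  induction T using Finset.induction_on_max with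
  | empty => rw [flagF_empty]; simp [alpha, alphaL, rankCount_zero]
  | insert a T hT _ =>
    rw [flagF_insert_eq hP a T hT]
    unfold alpha
    rw [sort_insert_max a T hT]
    simp [alphaL]

lemma flagH_eq_beta [Finite P] [OrderBot P] {n : ℕ} (hP : IsSimplicialOfRank P n)
    (S : Finset ℕ) : (flagH P S : ℂ) = beta (fun i => (rankCount P i : ℂ)) S := by
  unfold flagH beta
  push_cast
  refine Finset.sum_congr rfl fun T _ => ?_
  rw [flagF_eq_alpha hP]

lemma flagH_empty : flagH P ∅ = 1 := by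
  simp [flagH, flagF_empty]

/-- isolated subsets are small -/
lemma card_isolated {lo n : ℕ} {S : Finset ℕ} (h : S ∈ isoSets lo n) :
    2 * S.card ≤ n + 2 - lo := by
  rw [mem_isoSets] at h
  have hd : Disjoint S (S.map ⟨(· + 1), add_left_injective 1⟩) := by
    rw [Finset.disjoint_left]
    intro x hx hx'
    rw [Finset.mem_map] at hx'
    obtain ⟨y, hy, rfl⟩ := hx'
    exact h.2 y hy hx
  have hsub : S ∪ (S.map ⟨(· + 1), add_left_injective 1⟩) ⊆ Finset.Icc lo (n + 1) := by
    intro x hx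
    rw [Finset.mem_union] at hx
    rcases hx with hx | hx
    · have := Finset.mem_Icc.mp (h.1 hx)
      rw [Finset.mem_Icc]; omega
    · rw [Finset.mem_map] at hx
      obtain ⟨y, hy, rfl⟩ := hx
      have := Finset.mem_Icc.mp (h.1 hy)
      simp only [Function.Embedding.coeFn_mk]
      rw [Finset.mem_Icc]; omega
  have := Finset.card_le_card hsub
  rw [Finset.card_union_of_disjoint hd, Finset.card_map, Nat.card_Icc] at this
  omega

/-- the common shape of the two polynomials -/
noncomputable def shape (P : Type) [PartialOrder P] [GradeMinOrder ℕ P] (lo n d : ℕ) : ℝ[X] :=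
  ∑ S ∈ isoSets lo n, C (flagH P S : ℝ) * X ^ S.card * (1 + X) ^ (d - 2 * S.card)

lemma chowAug_eq (n : ℕ) : chowAug P n = shape P 1 n (n + 1) := rfl

lemma chow_eq (n : ℕ) : chow P n = shape P 2 n n := rfl

lemma empty_mem_isoSets (lo n : ℕ) : ∅ ∈ isoSets lo n := by
  rw [mem_isoSets]; exact ⟨Finset.empty_subset _, by simp [Isolated]⟩

lemma shape_split (lo n d : ℕ) : shape P lo n d =
    (1 + X) ^ d + ∑ S ∈ (isoSets lo n).erase ∅,
      C (flagH P S : ℝ) * X ^ S.card * (1 + X) ^ (d - 2 * S.card) := by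
  unfold shape
  rw [← Finset.add_sum_erase _ _ (empty_mem_isoSets lo n)]
  simp [flagH_empty]

lemma shape_monic_natDegree {lo n d : ℕ} (hd : n + 2 - lo ≤ d) :
    (shape P lo n d).Monic ∧ (shape P lo n d).natDegree = d := by
  rw [shape_split]
  have hm : ((1 + X : ℝ[X]) ^ d).Monic := by
    have : (1 + X : ℝ[X]) = X + C 1 := by rw [C_1, add_comm]
    rw [this]; exact (monic_X_add_C 1).pow d
  have hdeg : ((1 + X : ℝ[X]) ^ d).natDegree = d := by
    have : (1 + X : ℝ[X]) = X + C 1 := by rw [C_1, add_comm]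
    rw [this, natDegree_pow, natDegree_X_add_C, mul_one]
  have hdeg' : ((1 + X : ℝ[X]) ^ d).degree = d := by
    rw [degree_eq_natDegree hm.ne_zero, hdeg]
  have hlt : (∑ S ∈ (isoSets lo n).erase ∅,
      C (flagH P S : ℝ) * X ^ S.card * (1 + X) ^ (d - 2 * S.card)).degree <
      ((1 + X : ℝ[X]) ^ d).degree := by
    rw [hdeg', ← mem_degreeLT]
    refine Submodule.sum_mem _ ?_
    intro S hS
    rw [mem_degreeLT]
    rw [Finset.mem_erase] at hS
    have hc := card_isolated hS.2
    have hpos : 0 < S.card := Finset.card_pos.mpr (Finset.nonempty_iff_ne_empty.mpr hS.1)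
    refine lt_of_le_of_lt degree_le_natDegree ?_
    have : (C (flagH P S : ℝ) * X ^ S.card * (1 + X) ^ (d - 2 * S.card) : ℝ[X]).natDegree
        ≤ S.card + (d - 2 * S.card) := by
      refine natDegree_mul_le.trans (add_le_add ?_ ?_)
      · refine natDegree_mul_le.trans ?_
        rw [natDegree_C, natDegree_X_pow, zero_add]
      · refine natDegree_pow_le.trans ?_
        have : (1 + X : ℝ[X]) = X + C 1 := by rw [C_1, add_comm]
        rw [this, natDegree_X_add_C, mul_one]
    have h2 : S.card + (d - 2 * S.card) < d := by omega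
    exact_mod_cast lt_of_le_of_lt this h2
  constructor
  · exact hm.add_of_left hlt
  · rw [natDegree_add_eq_left_of_degree_lt hlt, hdeg]

lemma aeval_shape [Finite P] [OrderBot P] {n : ℕ} (hP : IsSimplicialOfRank P n)
    {lo d : ℕ} (hd : n + 2 - lo ≤ d) {x : ℂ} (hx : 1 + x ≠ 0) :
    aeval x (shape P lo n d) =
      (1 + x) ^ d * G lo (x / (1 + x) ^ 2) (fun i => (rankCount P i : ℂ)) n := by
  unfold shape G
  rw [map_sum, Finset.mul_sum]
  refine Finset.sum_congr rfl fun S hS => ?_
  have hc := card_isolated hS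
  rw [← flagH_eq_beta hP S]
  simp only [map_mul, map_pow, map_add, map_one, aeval_X, aeval_C]
  have e : (1 + x) ^ d = (1 + x) ^ (d - 2 * S.card) * ((1 + x) ^ 2) ^ S.card := by
    rw [← pow_mul, ← pow_add]; congr 1; omega
  rw [e, div_pow]
  have h2 : ((1 + x) ^ 2) ^ S.card ≠ 0 := pow_ne_zero _ (pow_ne_zero _ hx)
  field_simp
  simp
  ring

/-- the `f`-vector from the `h`-vector -/
lemma rankCount_eq_fOf (n : ℕ) {i : ℕ} (hi : i ≤ n) :
    (rankCount P i : ℝ) = fOf n (fun j => (hPoly P n).coeff j) i := by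
  set f : ℕ → ℝ := fun i => (rankCount P i : ℝ) with hf
  set h : ℕ → ℝ := fun j => (hPoly P n).coeff j with hh
  have hdeg : (hPoly P n).natDegree < n + 1 := by
    unfold hPoly
    refine Nat.lt_succ_of_le (natDegree_sum_le_of_forall_le _ _ ?_)
    intro i hi
    rw [Finset.mem_range] at hi
    refine natDegree_mul_le.trans ?_
    have h1 : (C (rankCount P i : ℝ) * X ^ i : ℝ[X]).natDegree ≤ i := natDegree_C_mul_X_pow_le _ _
    have h2 : ((1 - X : ℝ[X]) ^ (n - i)).natDegree ≤ n - i := by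
      refine natDegree_pow_le.trans ?_
      have : (1 - X : ℝ[X]).natDegree ≤ 1 := by
        refine (natDegree_sub_le _ _).trans ?_
        simp
      nlinarith
    omega
  have hA : (∑ j ∈ Finset.range (n + 1), C (h j) * X ^ j * (1 + X) ^ (n - j) : ℝ[X]) =
      ∑ i ∈ Finset.range (n + 1), C (f i) * X ^ i := by
    refine Polynomial.eq_of_infinite_eval_eq _ _ ?_
    refine (Set.Ioi_infinite (0 : ℝ)).mono ?_
    intro y hy
    have hy0 : (0 : ℝ) < y := hy
    have hy1 : (1 + y) ≠ 0 := by positivity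
    simp only [Set.mem_ofPred_eq, eval_finsetSum, eval_mul, eval_C, eval_pow, eval_X, eval_add,
      eval_one]
    have h1 : (hPoly P n).eval (y / (1 + y)) =
        ∑ j ∈ Finset.range (n + 1), h j * (y / (1 + y)) ^ j :=
      eval_eq_sum_range' hdeg _
    have h2 : (hPoly P n).eval (y / (1 + y)) =
        ∑ i ∈ Finset.range (n + 1), f i * (y / (1 + y)) ^ i * (1 - y / (1 + y)) ^ (n - i) := by
      unfold hPoly
      simp [eval_finsetSum, hf]
    have h3 : (1 - y / (1 + y)) = 1 / (1 + y) := by field_simp; ring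
    rw [h3] at h2
    have h4 : (1 + y) ^ n * ∑ j ∈ Finset.range (n + 1), h j * (y / (1 + y)) ^ j =
        (1 + y) ^ n * ∑ i ∈ Finset.range (n + 1),
          f i * (y / (1 + y)) ^ i * (1 / (1 + y)) ^ (n - i) := by
      rw [← h1, h2]
    rw [Finset.mul_sum, Finset.mul_sum] at h4
    have h5 : ∀ j ∈ Finset.range (n + 1), h j * y ^ j * (1 + y) ^ (n - j) =
        (1 + y) ^ n * (h j * (y / (1 + y)) ^ j) := by
      intro j hj
      rw [Finset.mem_range] at hj
      have e : (1 + y) ^ n = (1 + y) ^ (n - j) * (1 + y) ^ j := by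
        rw [← pow_add]; congr 1; omega
      rw [e, div_pow]
      field_simp
    have h6 : ∀ j ∈ Finset.range (n + 1), f j * y ^ j =
        (1 + y) ^ n * (f j * (y / (1 + y)) ^ j * (1 / (1 + y)) ^ (n - j)) := by
      intro j hj
      rw [Finset.mem_range] at hj
      have e : (1 + y) ^ n = (1 + y) ^ (n - j) * (1 + y) ^ j := by
        rw [← pow_add]; congr 1; omega
      rw [e, div_pow, div_pow]
      field_simp
      simp
    rw [Finset.sum_congr rfl h5, Finset.sum_congr rfl h6]
    exact h4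
  have hc := congrArg (fun p : ℝ[X] => p.coeff i) hA
  simp only [finsetSum_coeff] at hc
  have hr : ∑ b ∈ Finset.range (n + 1), (C (f b) * X ^ b : ℝ[X]).coeff i = f i := by
    rw [Finset.sum_eq_single i]
    · simp
    · intro b _ hb
      rw [coeff_C_mul_X_pow, if_neg (Ne.symm hb)]
    · intro h; exact absurd (Finset.mem_range.mpr (by omega)) h
  rw [hr] at hc
  change f i = _
  rw [← hc]
  unfold fOf
  rw [← Finset.sum_subset (s₁ := Finset.range (i + 1)) (s₂ := Finset.range (n + 1))]
  · refine Finset.sum_congr rfl fun j hj => ?_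
    rw [Finset.mem_range] at hj
    rw [mul_assoc, coeff_C_mul, coeff_X_pow_mul', if_pos (by omega), add_comm (1 : ℝ[X]) X,
      coeff_X_add_one_pow]
  · intro x hx; rw [Finset.mem_range] at *; omega
  · intro j _ hj
    rw [Finset.mem_range] at hj
    rw [mul_assoc, coeff_C_mul, coeff_X_pow_mul', if_neg (by omega), mul_zero]

lemma off_axis {x : ℂ} (hx : 0 < x.im) (s t : ℝ) (hs : 0 < s) (ht : 0 ≤ t) :
    (s : ℂ) + t * (x / (1 + x) ^ 2) ≠ 0 := by
  have hx1 : 1 + x ≠ 0 := by
    intro h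
    have := congrArg Complex.im h
    simp at this
    linarith
  intro h
  have h1 : (s : ℂ) * (1 + x) ^ 2 + t * x = 0 := by
    have h2 : (s : ℂ) * (1 + x) ^ 2 + t * x =
        (1 + x) ^ 2 * ((s : ℂ) + t * (x / (1 + x) ^ 2)) := by
      field_simp
    rw [h2, h, mul_zero]
  have hre := congrArg Complex.re h1
  have him := congrArg Complex.im h1
  simp [pow_two] at hre him
  have h3 : x.im * (2 * s * (1 + x.re) + t) = 0 := by linarith
  have h4 : 2 * s * (1 + x.re) + t = 0 := by
    rcases mul_eq_zero.mp h3 with h | h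
    · exact absurd h hx.ne'
    · exact h
  have h5 : t = -(2 * s * (1 + x.re)) := by linarith
  rw [h5] at hre
  have h6 : s * (1 - x.re ^ 2 - x.im ^ 2) = 0 := by nlinarith
  have h7 : 1 - x.re ^ 2 - x.im ^ 2 = 0 := by
    rcases mul_eq_zero.mp h6 with h | h
    · exact absurd h hs.ne'
    · exact h
  have h8 : 1 + x.re ≤ 0 := by
    by_contra hc
    push Not at hc
    have : 0 < s * (1 + x.re) := mul_pos hs hc
    linarith
  nlinarith [mul_pos hx hx]

/-- **Interlacing for nonnegative `h`-vectors.** -/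
theorem interlaces_of_nonneg [Finite P] [OrderBot P] (n : ℕ) (hn : 1 ≤ n)
    (hP : IsSimplicialOfRank P n) (hh : ∀ i, 0 ≤ (hPoly P n).coeff i) :
    Interlaces (chow P n) (chowAug P n) := by
  obtain ⟨m, rfl⟩ : ∃ m, n = m + 1 := ⟨n - 1, by omega⟩
  have hA := shape_monic_natDegree (P := P) (lo := 1) (n := m + 1) (d := m + 2) (by omega)
  have hB := shape_monic_natDegree (P := P) (lo := 2) (n := m + 1) (d := m + 1) (by omega)
  have h0 : (hPoly P (m + 1)).coeff 0 ≠ 0 := by
    have h1 := rankCount_eq_fOf (P := P) (m + 1) (Nat.zero_le _)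
    rw [fOf_zero_right, rankCount_zero] at h1
    rw [← h1]; simp
  have hcong : ∀ (lo : ℕ) (z : ℂ), G lo z (fun i => (rankCount P i : ℂ)) (m + 1) =
      G lo z (fOf (m + 1) (fun j => (((hPoly P (m + 1)).coeff j : ℝ) : ℂ))) (m + 1) := by
    intro lo z
    refine G_congr lo z fun i hi => ?_
    have h1 := rankCount_eq_fOf (P := P) (m + 1) hi
    have h2 := congrArg (fun r : ℝ => (r : ℂ)) h1
    simp only [fOf, Complex.ofReal_natCast, Complex.ofReal_sum, Complex.ofReal_mul] at h2
    simpa [fOf] using h2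
  have key : ∀ x : ℂ, 0 < x.im → ∃ a b : ℂ, a ≠ 0 ∧ b ≠ 0 ∧ Rel (x / (1 + x) ^ 2) a b ∧
      1 + x ≠ 0 ∧ aeval x (chow P (m + 1)) = (1 + x) ^ (m + 1) * a ∧
      aeval x (chowAug P (m + 1)) = (1 + x) ^ (m + 2) * b := by
    intro x hx
    have hx1 : 1 + x ≠ 0 := by
      intro h
      have := congrArg Complex.im h
      simp at this
      linarith
    obtain ⟨k1, k2, k3⟩ := key_rel (z := x / (1 + x) ^ 2)
      (fun s t hs ht => off_axis hx s t hs ht) m (fun j => (hPoly P (m + 1)).coeff j) hh h0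
    refine ⟨_, _, k2, k1, k3, hx1, ?_, ?_⟩
    · rw [chow_eq, aeval_shape hP (by omega) hx1, hcong]
    · rw [chowAug_eq, aeval_shape hP (by omega) hx1, hcong]
  refine interlaces_of_im hB.1 hA.1 ?_ ?_ ?_ ?_
  · rw [chow_eq, chowAug_eq, hA.2, hB.2]
  · intro x hx
    obtain ⟨a, b, ha, hb, _, hx1, h1, h2⟩ := key x hx
    rw [h1]; exact mul_ne_zero (pow_ne_zero _ hx1) ha
  · intro x hx
    obtain ⟨a, b, ha, hb, _, hx1, h1, h2⟩ := key x hx
    rw [h2]; exact mul_ne_zero (pow_ne_zero _ hx1) hb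
  · intro x hx
    obtain ⟨a, b, ha, hb, ⟨s, t, hs, ht, hst⟩, hx1, h1, h2⟩ := key x hx
    rw [h1, h2]
    have e : (1 + x) ^ (m + 2) * b * conj ((1 + x) ^ (m + 1) * a) =
        ((Complex.normSq (1 + x) ^ (m + 1) : ℝ) : ℂ) *
          (s * (1 + x) + t * (x / (1 + x))) := by
      have e1 : (1 + x) ^ (m + 2) * b * conj ((1 + x) ^ (m + 1) * a) =
          ((1 + x) * conj (1 + x)) ^ (m + 1) * ((1 + x) * (b * conj a)) := by
        rw [map_mul, map_pow, mul_pow]; ring
      rw [e1, Complex.mul_conj, hst]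
      push_cast
      congr 1
      field_simp
    rw [e, Complex.im_ofReal_mul]
    refine mul_nonneg (pow_nonneg (Complex.normSq_nonneg _) _) ?_
    rw [Complex.add_im, Complex.im_ofReal_mul, Complex.im_ofReal_mul]
    refine add_nonneg (mul_nonneg hs ?_) (mul_nonneg ht ?_)
    · simp; exact hx.le
    · rw [Complex.div_im]
      have hn := Complex.normSq_pos.mpr hx1
      have : x.im * (1 + x).re / Complex.normSq (1 + x) -
          x.re * (1 + x).im / Complex.normSq (1 + x) = x.im / Complex.normSq (1 + x) := by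
        simp; field_simp; ring
      rw [this]
      positivity

end Pool.Agent.W_MP_308f9e_co_h1
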