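import Pool.Agent.W_MP_308f9e_co_h1.TwoFacets

/-!
# Two 4-simplices sharing an edge: definitions
-/

namespace Pool.Agent.W_MP_308f9e_co_h1

/-- The face poset of two 4-simplices (on vertices `0, 1, 2, 3, 4` and `3, 4, 5, 6, 7`) sharing the
edge `{3, 4}`. -/
abbrev K : Type := TwoFacets ({0, 1, 2, 3, 4} : Finset (Fin 8)) {3, 4, 5, 6, 7}

end Pool.Agent.W_MP_308f9e_co_h1
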